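import Pool.Agent.Helper8.Kak.ZSpace

/-!
# The final step: instantiation of the bookkeeping

`S` is a system, `S'` a second system living over `S` through a measure preserving map `φ`
(`Link S S'`): the line of `S'` is the line of `S` at `φ`, and the base partition and the height of
`S` at `φ` are measurable with respect to the partition of `S'`. The fourth line of the X-step over
`S'` meets a new line of `S` in the point at the height `bh = S.T ∘ φ`.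
-/

set_option autoImplicit false

namespace Pool.Agent.Helper8.Kak

open Pool.Agent.Helper89.KakGeo

section gen

variable {Ω Ω' : Type} [Fintype Ω] [Fintype Ω'] {p : Ω → ℝ} {p' : Ω' → ℝ}

theorem MP.Ex_eq {φ : Ω → Ω'} (h : MP p p' φ) (f : Ω' → ℝ) :
    Ex p (fun ω => f (φ ω)) = Ex p' f := h.sum_comp f

/-- entropies of sub-families through a measure preserving map -/
theorem HH_map {ι ι' : Type} [DecidableEq ι] [DecidableEq ι'] (hp : IsProb p) {φ : Ω → Ω'}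
    (hc : MP p p' φ) (V : ι → Setoid Ω) (V' : ι' → Setoid Ω') (A : Finset ι) (A' : Finset ι')
    (h : ∀ ω ω', 0 < p ω → 0 < p ω' →
      ((∀ i ∈ A, V i ω ω') ↔ ∀ j ∈ A', V' j (φ ω) (φ ω'))) :
    HH p V A = HH p' V' A' := by
  unfold HH
  rw [← hc.Ent_eq (A'.inf V')]
  exact Ent_congr' hp fun y y' h1 h2 =>
    ((inf_rel V A y y').trans (h y y' h1 h2)).trans (inf_rel V' A' (φ y) (φ y')).symm

end gen

/-- a second system over a system -/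
structure Link {m M : ℕ} {G : Geo m M} (S S' : Sys G) where
  φ : S'.Ω → S.Ω
  hφ : MP S'.p S.p φ
  hl : ∀ y, 0 < S'.p y → S.l (φ y) = S'.l y
  hK : ∀ y y', 0 < S'.p y → 0 < S'.p y' → S'.K y y' → S.K (φ y) (φ y')
  hT : ∀ y y', S'.K y y' → S.T (φ y) = S.T (φ y')

section

variable {m M : ℕ} {G : Geo m M}

/-- output of the X-step used by the final step -/
structure XOut (N : Sys G) (bh : N.Ω → Fin M) (k ku kd : ℝ) : Prop where
  prob : IsProb N.pZ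
  fst : MP N.pZ N.pY Prod.fst
  snd : MP N.pZ (pA1 N.p N.K N.l) Prod.snd
  hup : Ex N.pZ (fun z => up M (vc3 N bh z)) ≤ ku
  hdn : Ex N.pZ (fun z => dn M (vc3 N bh z)) ≤ kd
  x0 : N.eK + 3 * Real.log M + 2 * N.a - 2 * N.h + N.Lam - k ≤
    HH N.pZ (N.VZ bh) {.K, .T0, .T1, .b, .l1, .l3}
  g3 : Real.log M - k ≤ HH N.pZ (N.VZ bh) {.K, .T0, .T1, .b, .l1, .l3, .c3}
    - HH N.pZ (N.VZ bh) {.K, .T0, .T1, .b, .l1, .l3}
  u0 : HH N.pZ (N.VZ bh) {.K, .T0, .T1, .b} ≤ N.eK + 3 * Real.log M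
  u1 : HH N.pZ (N.VZ bh) {.K, .l1, .T0, .T1, .b} ≤ N.eL + 3 * Real.log M

namespace Link

section defs

variable {S S' : Sys G} (L : Link S S')

/-- the base height, measurable for the second system -/
def bh (y : S'.Ω) : Fin M := S.T (L.φ y)

/-- the coordinate of the fourth line of the second system, a point of the base space -/
def nn (z : ZZ S'.Ω) : S.Ω := L.φ z.2.1

/-- the law of the final step -/
noncomputable def p5 : ZZ S'.Ω × (S.Ω × S.Ω) → ℝ :=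
  glue S'.pZ (pA1 S.p S.K S.l) (fP S.K S.l S.T G.P ∘ L.nn) (fP S.K S.l S.T G.P ∘ Prod.fst)

/-- the parameter `c4` -/
noncomputable def c4 (w : ZZ S'.Ω × (S.Ω × S.Ω)) : ℤ :=
  mvInf (vc3 S' L.bh w.1) (S.T w.2.2) (S.T (L.nn w.1))

/-- the form `y` -/
noncomputable def y (w : ZZ S'.Ω × (S.Ω × S.Ω)) : Fin m → ℤ :=
  cell G.δ (fun i => G.v (S.l w.2.1) i + ((L.c4 w : ℤ) : ℝ) / M * G.v (S'.l (c1 w.1.1)) i)

/-- the random variables of the final step -/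
noncomputable def V5 : V3 → Setoid (ZZ S'.Ω × (S.Ω × S.Ω))
  | .K => Setoid.comap (fun w => L.nn w.1) S.K
  | .Q => Setoid.comap Prod.fst (S'.VZ L.bh .K)
  | .b => Setoid.ker (fun w => S.T (L.nn w.1))
  | .m1 => Setoid.comap Prod.fst (S'.VZ L.bh .l1)
  | .m3 => Setoid.comap Prod.fst (S'.VZ L.bh .l3)
  | .U0 => Setoid.comap Prod.fst (S'.VZ L.bh .T0)
  | .U1 => Setoid.comap Prod.fst (S'.VZ L.bh .T1)
  | .U2 => Setoid.comap Prod.fst (S'.VZ L.bh .b)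
  | .c3 => Setoid.comap Prod.fst (S'.VZ L.bh .c3)
  | .u => Setoid.comap Prod.fst (S'.VZ L.bh .u)
  | .s => Setoid.comap Prod.fst (S'.VZ L.bh .s)
  | .l5 => Setoid.ker (fun w => S.l w.2.1)
  | .t5 => Setoid.ker (fun w => S.T w.2.2)
  | .P5 => Setoid.ker (fun w => G.P (S.l w.2.1) (S.T w.2.2))
  | .c4 => Setoid.ker L.c4
  | .y => Setoid.ker L.y

/-- entropy of the point at the base height given the second system -/
noncomputable def sg : ℝ :=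
  Ent S'.p (S'.K ⊓ Setoid.ker (fun y => G.P (S'.l y) (L.bh y))) - S'.eK

/-- relations between the coordinates of two points of the support -/
structure LW (w w' : ZZ S'.Ω × (S.Ω × S.Ω)) : Prop where
  KQ : S'.K w.1.2.1 w'.1.2.1 ↔ S'.K (c0 w.1.1) (c0 w'.1.1)
  KK : S'.K w.1.2.1 w'.1.2.1 → S.K (L.nn w.1) (L.nn w'.1)
  K5 : S.K w.2.1 w'.2.1 ↔ S.K (L.nn w.1) (L.nn w'.1)
  K6 : S.K w.2.2 w'.2.2 ↔ S.K (L.nn w.1) (L.nn w'.1)
  l6 : S.l w.2.2 = S.l w.2.1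
  m6 : S.l w'.2.2 = S.l w'.2.1
  t5 : S.T w.2.1 = S.T (L.nn w.1)
  u5 : S.T w'.2.1 = S.T (L.nn w'.1)
  p5 : G.P (S.l w.2.1) (S.T (L.nn w.1)) = G.P (S'.l w.1.2.1) (S.T (L.nn w.1))
  q5 : G.P (S.l w'.2.1) (S.T (L.nn w'.1)) = G.P (S'.l w'.1.2.1) (S.T (L.nn w'.1))

theorem V5_K (w w') : L.V5 .K w w' ↔ S.K (L.nn w.1) (L.nn w'.1) := Iff.rfl
theorem V5_Q (w w') : L.V5 .Q w w' ↔ S'.K (c0 w.1.1) (c0 w'.1.1) := Iff.rfl
theorem V5_b (w w') : L.V5 .b w w' ↔ S.T (L.nn w.1) = S.T (L.nn w'.1) := Iff.rfl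
theorem V5_m1 (w w') : L.V5 .m1 w w' ↔ S'.l (c1 w.1.1) = S'.l (c1 w'.1.1) := Iff.rfl
theorem V5_m3 (w w') : L.V5 .m3 w w' ↔ S'.l w.1.2.1 = S'.l w'.1.2.1 := Iff.rfl
theorem V5_c3 (w w') : L.V5 .c3 w w' ↔ vc3 S' L.bh w.1 = vc3 S' L.bh w'.1 := Iff.rfl
theorem V5_u (w w') : L.V5 .u w w' ↔ vu S' L.bh w.1 = vu S' L.bh w'.1 := Iff.rfl
theorem V5_s (w w') : L.V5 .s w w' ↔
  G.P (S'.l w.1.2.1) (S.T (L.nn w.1)) = G.P (S'.l w'.1.2.1) (S.T (L.nn w'.1)) := Iff.rfl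
theorem V5_l5 (w w') : L.V5 .l5 w w' ↔ S.l w.2.1 = S.l w'.2.1 := Iff.rfl
theorem V5_t5 (w w') : L.V5 .t5 w w' ↔ S.T w.2.2 = S.T w'.2.2 := Iff.rfl
theorem V5_P5 (w w') : L.V5 .P5 w w' ↔
  G.P (S.l w.2.1) (S.T w.2.2) = G.P (S.l w'.2.1) (S.T w'.2.2) := Iff.rfl
theorem V5_c4 (w w') : L.V5 .c4 w w' ↔ L.c4 w = L.c4 w' := Iff.rfl
theorem V5_y (w w') : L.V5 .y w w' ↔ L.y w = L.y w' := Iff.rfl

end defs

end Link

variable {S S' : Sys G} {L : Link S S'} {k ku kd : ℝ} (X : XOut S' L.bh k ku kd)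

include X

theorem XOut.MP_n : MP S'.pZ S'.p (fun z => z.2.1) := X.snd.comp (A1_fst S'.K S'.l S'.hp)

theorem XOut.MP_nn : MP S'.pZ S.p L.nn := X.MP_n.comp L.hφ

theorem XOut.law5 (c) : law S'.pZ (fP S.K S.l S.T G.P ∘ L.nn) c
    = law (pA1 S.p S.K S.l) (fP S.K S.l S.T G.P ∘ Prod.fst) c := by
  rw [X.MP_nn.law_eq, (A1_fst S.K S.l S.hp).law_eq]

theorem XOut.prob5 : IsProb L.p5 := glue_isProb X.prob (A1_prob S.K S.l S.hp) X.law5

theorem XOut.fst5 : MP L.p5 S'.pZ Prod.fst := glue_fst X.prob.1 X.law5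

theorem XOut.snd5 : MP L.p5 (pA1 S.p S.K S.l) Prod.snd :=
  glue_snd (A1_prob S.K S.l S.hp).1 X.law5

theorem XOut.MP_21 : MP L.p5 S.p (fun w => w.2.1) := X.snd5.comp (A1_fst S.K S.l S.hp)

theorem XOut.MP_22 : MP L.p5 S.p (fun w => w.2.2) := X.snd5.comp (A1_snd S.K S.l S.hp)

theorem XOut.MP_n5 : MP L.p5 S'.p (fun w => w.1.2.1) := X.fst5.comp X.MP_n

theorem XOut.MP_y5 : MP L.p5 S'.pY (fun w => w.1.1) := X.fst5.comp X.fst

theorem XOut.aux {w : ZZ S'.Ω × (S.Ω × S.Ω)} (h : 0 < L.p5 w) :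
    (0 < S'.pY w.1.1 ∧ 0 < S'.p w.1.2.1) ∧
    (S'.K (cb w.1.1) w.1.2.1) ∧
    (S.K (L.nn w.1) w.2.1 ∧ S.T (L.nn w.1) = S.T w.2.1 ∧
      G.P (S.l (L.nn w.1)) (S.T (L.nn w.1)) = G.P (S.l w.2.1) (S.T w.2.1)) ∧
    (S.K w.2.1 w.2.2 ∧ S.l w.2.1 = S.l w.2.2) := by
  have h1 : 0 < S'.pZ w.1 := X.fst5.pos X.prob5.1 h
  have h2 : 0 < pA1 S.p S.K S.l w.2 := X.snd5.pos X.prob5.1 h
  have h3 : 0 < S'.pY w.1.1 := X.fst.pos X.prob.1 h1
  have h4 : 0 < S'.p w.1.2.1 := X.MP_n.pos X.prob.1 h1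
  have g1 : fP S'.K S'.l S'.T G.P (cb w.1.1) = fP S'.K S'.l S'.T G.P w.1.2.1 := glue_link h1
  have g2 : fP S.K S.l S.T G.P (L.nn w.1) = fP S.K S.l S.T G.P w.2.1 := glue_link h
  have g3 : fL S.K S.l w.2.1 = fL S.K S.l w.2.2 := glue_link h2
  exact ⟨⟨h3, h4⟩, (fP_eq.1 g1).1, fP_eq.1 g2, fL_eq.1 g3⟩

theorem XOut.lw {w w' : ZZ S'.Ω × (S.Ω × S.Ω)}
    (h : 0 < L.p5 w) (h' : 0 < L.p5 w') : L.LW w w' := by
  obtain ⟨⟨a1, a2⟩, a3, ⟨a4, a5, a6⟩, a7, a8⟩ := X.aux h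
  obtain ⟨⟨b1, b2⟩, b3, ⟨b4, b5, b6⟩, b7, b8⟩ := X.aux h'
  have k2 := S'.lk a1 b1
  have e1 := Kcongr a4 b4
  have l1 : S.l (L.nn w.1) = S'.l w.1.2.1 := L.hl _ a2
  have l2 : S.l (L.nn w'.1) = S'.l w'.1.2.1 := L.hl _ b2
  refine ⟨(Kcongr a3 b3).trans k2.Kb, L.hK _ _ a2 b2, e1, (Kcongr a7 b7).trans e1, a8.symm,
    b8.symm, a5.symm, b5.symm, ?_, ?_⟩
  · rw [← l1, a6, a5]
  · rw [← l2, b6, b5]

theorem XOut.valid5 : Valid L.p5 L.V5 F3.rules := by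
  intro r hr D hD w w' hw hw' h
  have q := X.lw hw hw'
  simp only [F3.rules, List.mem_cons, List.not_mem_nil, or_false] at hr
  rcases hr with rfl | rfl | rfl | rfl | rfl | rfl | rfl <;>
    simp only [List.mem_cons, List.not_mem_nil, or_false] at hD
  · subst hD
    simp only [Finset.mem_singleton, forall_eq, L.V5_Q] at h
    exact q.KK (q.KQ.2 h)
  · subst hD
    simp only [Finset.mem_singleton, forall_eq, L.V5_Q] at h
    exact L.hT _ _ (q.KQ.2 h)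
  · rcases hD with rfl | rfl <;>
      simp only [Finset.mem_insert, Finset.mem_singleton, forall_eq_or_imp, forall_eq, L.V5_Q,
        L.V5_m3, L.V5_b, L.V5_l5] at h
    · have h1 : S.T (L.nn w.1) = S.T (L.nn w'.1) := L.hT _ _ (q.KQ.2 h.1)
      rw [L.V5_s, h1, h.2]
    · rw [L.V5_s, ← q.p5, ← q.q5, h.1, h.2]
  · subst hD
    simp only [Finset.mem_insert, Finset.mem_singleton, forall_eq_or_imp, forall_eq, L.V5_l5,
      L.V5_t5] at h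
    rw [L.V5_P5, h.1, h.2]
  · subst hD
    simp only [Finset.mem_insert, Finset.mem_singleton, forall_eq_or_imp, forall_eq, L.V5_Q,
      L.V5_m3, L.V5_m1, L.V5_c3] at h
    obtain ⟨h1, h2, h3, h4⟩ := h
    have h5 : L.bh w.1.2.1 = L.bh w'.1.2.1 := L.hT _ _ (q.KQ.2 h1)
    rw [L.V5_u]
    unfold vu
    rw [h3, h4, h5, h2]
  · subst hD
    simp only [Finset.mem_insert, Finset.mem_singleton, forall_eq_or_imp, forall_eq, L.V5_c3,
      L.V5_t5, L.V5_b] at h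
    obtain ⟨h1, h2, h3⟩ := h
    rw [L.V5_c4]
    unfold Link.c4
    rw [h1, h2, h3]
  · subst hD
    simp only [Finset.mem_insert, Finset.mem_singleton, forall_eq_or_imp, forall_eq, L.V5_l5,
      L.V5_m1, L.V5_c4] at h
    obtain ⟨h1, h2, h3⟩ := h
    rw [L.V5_y]
    unfold Link.y
    rw [h1, h2, h3]

theorem XOut.h_coord5 {Ω' : Type} [Fintype Ω'] {p' : Ω' → ℝ}
    {c : ZZ S'.Ω × (S.Ω × S.Ω) → Ω'} (hc : MP L.p5 p' c) (A : Finset V3) (r : Setoid Ω')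
    (h : ∀ w w', L.LW w w' → ((∀ i ∈ A, L.V5 i w w') ↔ r (c w) (c w'))) :
    HH L.p5 L.V5 A = Ent p' r :=
  HH_coord X.prob5 hc L.V5 A r fun w w' h1 h2 => h w w' (X.lw h1 h2)

theorem XOut.hK : HH L.p5 L.V5 {.K} = S.eK :=
  X.h_coord5 X.MP_21 _ S.K fun w w' q => by
    simp [L.V5_K, q.K5]

theorem XOut.hL5 : HH L.p5 L.V5 {.K, .l5} = S.eL :=
  X.h_coord5 X.MP_21 _ (S.K ⊓ Setoid.ker S.l) fun w w' q => by
    simp [L.V5_K, L.V5_l5, q.K5, Setoid.inf_iff_and, Setoid.ker_def]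

theorem XOut.h5b : HH L.p5 L.V5 {.K, .l5, .b} = S.eB :=
  X.h_coord5 X.MP_21 _ (S.K ⊓ Setoid.ker S.l ⊓ Setoid.ker S.T) fun w w' q => by
    simp [L.V5_K, L.V5_l5, L.V5_b, q.K5, q.t5, q.u5, Setoid.inf_iff_and, Setoid.ker_def, and_assoc]

theorem XOut.h55 : HH L.p5 L.V5 {.K, .l5, .t5} = S.eB :=
  X.h_coord5 X.MP_22 _ (S.K ⊓ Setoid.ker S.l ⊓ Setoid.ker S.T) fun w w' q => by
    simp [L.V5_K, L.V5_l5, L.V5_t5, q.K6, q.l6, q.m6, Setoid.inf_iff_and, Setoid.ker_def, and_assoc]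

theorem XOut.hTb : HH L.p5 L.V5 {.K, .b} = S.eT :=
  X.h_coord5 X.MP_21 _ (S.K ⊓ Setoid.ker S.T) fun w w' q => by
    simp [L.V5_K, L.V5_b, q.K5, q.t5, q.u5, Setoid.inf_iff_and, Setoid.ker_def]

theorem XOut.hT5 : HH L.p5 L.V5 {.K, .t5} = S.eT :=
  X.h_coord5 X.MP_22 _ (S.K ⊓ Setoid.ker S.T) fun w w' q => by
    simp [L.V5_K, L.V5_t5, q.K6, Setoid.inf_iff_and, Setoid.ker_def]

theorem XOut.hPs : HH L.p5 L.V5 {.K, .b, .s} = S.eP :=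
  X.h_coord5 X.MP_21 _ (S.K ⊓ Setoid.ker S.T ⊓ Setoid.ker (fun ω => G.P (S.l ω) (S.T ω)))
    fun w w' q => by
    simp [L.V5_K, L.V5_b, L.V5_s, q.K5, q.t5, q.u5, ← q.p5, ← q.q5, Setoid.inf_iff_and,
      Setoid.ker_def, and_assoc]

theorem XOut.hP5 : HH L.p5 L.V5 {.K, .t5, .P5} = S.eP :=
  X.h_coord5 X.MP_22 _ (S.K ⊓ Setoid.ker S.T ⊓ Setoid.ker (fun ω => G.P (S.l ω) (S.T ω)))
    fun w w' q => by
    simp [L.V5_K, L.V5_t5, L.V5_P5, q.K6, q.l6, q.m6, Setoid.inf_iff_and, Setoid.ker_def, and_assoc]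

theorem XOut.hQ : HH L.p5 L.V5 {.Q} = S'.eK := by
  have h := X.h_coord5 X.MP_n5 {.Q} S'.K fun w w' q => by
    simp only [Finset.mem_singleton, forall_eq, L.V5_Q]
    exact q.KQ.symm
  rw [h]
  unfold Sys.eK
  rfl

theorem XOut.hQ3 : HH L.p5 L.V5 {.Q, .m3} = S'.eL := by
  have h := X.h_coord5 X.MP_n5 {.Q, .m3} (S'.K ⊓ Setoid.ker S'.l) fun w w' q => by
    simp only [Finset.mem_insert, Finset.mem_singleton, forall_eq_or_imp, forall_eq, L.V5_Q,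
      L.V5_m3]
    exact and_congr q.KQ.symm Iff.rfl
  rw [h]
  unfold Sys.eL
  rfl

theorem XOut.hQ1 : HH L.p5 L.V5 {.Q, .m1} = S'.eL := by
  have h := HH_map X.prob5 X.MP_y5 L.V5 S'.V {.Q, .m1} {.K, .l1} fun w w' _ _ => by
    simp only [Finset.mem_insert, Finset.mem_singleton, forall_eq_or_imp, forall_eq]
    exact Iff.rfl
  rw [h]
  exact S'.base.hL1

theorem XOut.hs : HH L.p5 L.V5 {.Q, .s} = S'.eK + L.sg := by
  have h := X.h_coord5 X.MP_n5 {.Q, .s}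
    (S'.K ⊓ Setoid.ker (fun y => G.P (S'.l y) (L.bh y))) fun w w' q => by
    simp only [Finset.mem_insert, Finset.mem_singleton, forall_eq_or_imp, forall_eq, L.V5_Q,
      L.V5_s]
    exact and_congr q.KQ.symm Iff.rfl
  rw [h]
  unfold Link.sg
  ring

theorem XOut.m_U : HH L.p5 L.V5 {.Q, .U0, .U1, .U2}
    = HH S'.pZ (S'.VZ L.bh) {.K, .T0, .T1, .b} :=
  HH_map X.prob5 X.fst5 L.V5 (S'.VZ L.bh) _ _ fun w w' _ _ => by
    simp only [Finset.mem_insert, Finset.mem_singleton, forall_eq_or_imp, forall_eq]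
    exact Iff.rfl

theorem XOut.m_U1 : HH L.p5 L.V5 {.Q, .m1, .U0, .U1, .U2}
    = HH S'.pZ (S'.VZ L.bh) {.K, .l1, .T0, .T1, .b} :=
  HH_map X.prob5 X.fst5 L.V5 (S'.VZ L.bh) _ _ fun w w' _ _ => by
    simp only [Finset.mem_insert, Finset.mem_singleton, forall_eq_or_imp, forall_eq]
    exact Iff.rfl

theorem XOut.m_X0 : HH L.p5 L.V5 {.Q, .U0, .U1, .U2, .m1, .m3}
    = HH S'.pZ (S'.VZ L.bh) {.K, .T0, .T1, .b, .l1, .l3} :=
  HH_map X.prob5 X.fst5 L.V5 (S'.VZ L.bh) _ _ fun w w' _ _ => by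
    simp only [Finset.mem_insert, Finset.mem_singleton, forall_eq_or_imp, forall_eq]
    exact Iff.rfl

theorem XOut.m_G3 : HH L.p5 L.V5 {.Q, .U0, .U1, .U2, .m1, .m3, .c3}
    = HH S'.pZ (S'.VZ L.bh) {.K, .T0, .T1, .b, .l1, .l3, .c3} :=
  HH_map X.prob5 X.fst5 L.V5 (S'.VZ L.bh) _ _ fun w w' _ _ => by
    simp only [Finset.mem_insert, Finset.mem_singleton, forall_eq_or_imp, forall_eq]
    exact Iff.rfl

theorem XOut.m_X :
    HH L.p5 L.V5 {.Q, .U0, .U1, .U2, .c3, .u} - HH L.p5 L.V5 {.Q, .U0, .U1, .U2, .c3}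
    = S'.X L.bh := by
  unfold Sys.X
  congr 1
  · exact HH_map X.prob5 X.fst5 L.V5 (S'.VZ L.bh) _ _ fun w w' _ _ => by
      simp only [Finset.mem_insert, Finset.mem_singleton, forall_eq_or_imp, forall_eq]
      exact Iff.rfl
  · exact HH_map X.prob5 X.fst5 L.V5 (S'.VZ L.bh) _ _ fun w w' _ _ => by
      simp only [Finset.mem_insert, Finset.mem_singleton, forall_eq_or_imp, forall_eq]
      exact Iff.rfl

/-- total entropy of the glued space -/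
theorem XOut.tot :
    HH L.p5 L.V5 {.Q, .U0, .U1, .U2, .m1, .m3, .c3} + 2 * S.eB - S.eL - S.eP
      ≤ HH L.p5 L.V5 {.Q, .U0, .U1, .U2, .m1, .m3, .c3, .l5, .t5} := by
  set rZ : Setoid (ZZ S'.Ω) :=
    ({.K, .T0, .T1, .b, .l1, .l3, .c3} : Finset V2).inf (S'.VZ L.bh) with hrZ
  have hrel : ∀ z z' : ZZ S'.Ω, 0 < S'.pZ z → 0 < S'.pZ z' → rZ z z' →
      fP S.K S.l S.T G.P (L.nn z) = fP S.K S.l S.T G.P (L.nn z') := by
    intro z z' hz hz' h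
    rw [hrZ, inf_rel] at h
    have hK : S'.K (c0 z.1) (c0 z'.1) := h V2.K (by decide +kernel)
    have h3 : S'.l z.2.1 = S'.l z'.2.1 := h V2.l3 (by decide +kernel)
    have a1 := X.fst.pos X.prob.1 hz
    have b1 := X.fst.pos X.prob.1 hz'
    have a2 := X.MP_n.pos X.prob.1 hz
    have b2 := X.MP_n.pos X.prob.1 hz'
    have a3 : S'.K (cb z.1) z.2.1 := (fP_eq.1 (show fP S'.K S'.l S'.T G.P
      (cb z.1) = fP S'.K S'.l S'.T G.P z.2.1 from glue_link hz)).1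
    have b3 : S'.K (cb z'.1) z'.2.1 := (fP_eq.1 (show fP S'.K S'.l S'.T G.P
      (cb z'.1) = fP S'.K S'.l S'.T G.P z'.2.1 from glue_link hz')).1
    have k2 := S'.lk a1 b1
    have hn : S'.K z.2.1 z'.2.1 := ((Kcongr a3 b3).trans k2.Kb).2 hK
    have hT : S.T (L.nn z) = S.T (L.nn z') := L.hT _ _ hn
    have l1 : S.l (L.nn z) = S'.l z.2.1 := L.hl _ a2
    have l2 : S.l (L.nn z') = S'.l z'.2.1 := L.hl _ b2
    refine fP_eq.2 ⟨L.hK _ _ a2 b2 hn, hT, ?_⟩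
    rw [l1, l2, h3, hT]
  have h := Ent_glue X.prob (A1_prob S.K S.l S.hp) X.law5 rZ S.rA hrel
    (fun _ _ _ _ h => S.rB_fP h.1)
  have e3 : Ent S'.pZ (Setoid.ker (fP S.K S.l S.T G.P ∘ L.nn)) = S.eP := by
    rw [← S.ker_fP, ← X.MP_nn.Ent_eq]
    rfl
  rw [e3, S.ent_rA] at h
  have e4 : Ent S'.pZ rZ = HH L.p5 L.V5 {.Q, .U0, .U1, .U2, .m1, .m3, .c3} := by
    rw [X.m_G3]
    rfl
  rw [e4] at h
  have h5 : Ent L.p5 (Setoid.comap Prod.fst rZ ⊓ Setoid.comap Prod.snd S.rA)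
      ≤ HH L.p5 L.V5 {.Q, .U0, .U1, .U2, .m1, .m3, .c3, .l5, .t5} := by
    unfold HH
    refine Ent_mono' X.prob5 fun w w' h h' h1 => ?_
    have q := X.lw h h'
    rw [inf_rel] at h1
    simp only [Finset.mem_insert, Finset.mem_singleton, forall_eq_or_imp, forall_eq] at h1
    obtain ⟨g1, g2, g3, g4, g5, g6, g7, g8, g9⟩ := h1
    have gn := q.KQ.2 g1
    have gK := q.KK gn
    have gb : S.T (L.nn w.1) = S.T (L.nn w'.1) := L.hT _ _ gn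
    refine ⟨?_, ⟨⟨q.K5.2 gK, g8⟩, ?_⟩, ⟨⟨q.K6.2 gK, ?_⟩, g9⟩⟩
    · show rZ w.1 w'.1
      rw [hrZ, inf_rel]
      simp only [Finset.mem_insert, Finset.mem_singleton, forall_eq_or_imp, forall_eq]
      exact ⟨g1, g2, g3, g4, g5, g6, g7⟩
    · show S.T w.2.1 = S.T w'.2.1
      rw [q.t5, q.u5, gb]
    · show S.l w.2.2 = S.l w'.2.2
      rw [q.l6, q.m6]
      exact g8
  have h6 : Ent L.p5 (Setoid.comap Prod.fst rZ ⊓ Setoid.comap Prod.snd S.rA) =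
    HH L.p5 L.V5 {.Q, .U0, .U1, .U2, .m1, .m3, .c3} + (2 * S.eB - S.eL) - S.eP := h
  linarith

/-- the height `t5` is almost uniform given everything else -/
theorem XOut.ht5 :
    S.eB - S.eL ≤ HH L.p5 L.V5 {.Q, .U0, .U1, .U2, .m1, .m3, .c3, .l5, .t5}
      - HH L.p5 L.V5 {.Q, .U0, .U1, .U2, .m1, .m3, .c3, .l5} := by
  have i1 := HH_INC X.prob5 X.valid5 {.K, .b, .s} {.K, .l5, .b}
    {.Q, .U0, .U1, .U2, .m1, .m3, .c3}
    {.Q, .U0, .U1, .U2, .m1, .m3, .c3, .l5} (by decide +kernel) (by decide +kernel)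
  linarith [X.tot, X.hPs, X.h5b]

/-! ### distances and sizes of the parameters -/

theorem XOut.ld5 : Ex L.p5 (fun w => ld (S.T w.2.2) (S.T (L.nn w.1))) ≤ 5 * (S.κ + 1) := by
  have h := close X.prob5 (({.Q, .U0, .U1, .U2, .m1, .m3, .c3, .l5} : Finset V3).inf L.V5)
    (fun w => S.T (L.nn w.1)) (fun w => S.T w.2.2) (fun w w' h1 h2 h3 => by
      have q := X.lw h1 h2
      exact L.hT _ _ (q.KQ.2 ((inf_rel L.V5 _ w w').1 h3 V3.Q (by decide +kernel))))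
  have e : ({.Q, .U0, .U1, .U2, .m1, .m3, .c3, .l5, .t5} : Finset V3)
      = insert V3.t5 {.Q, .U0, .U1, .U2, .m1, .m3, .c3, .l5} := by decide +kernel
  have e2 := cost_eq (p := L.p5) (V := L.V5) _ _ V3.t5 e
  have h5 := X.ht5
  rw [e2] at h5
  have h6 : CE L.p5 (L.V5 V3.t5) (({.Q, .U0, .U1, .U2, .m1, .m3, .c3, .l5} : Finset V3).inf L.V5)
      = Ent L.p5 (Setoid.ker (fun w => S.T w.2.2) ⊓
        (({.Q, .U0, .U1, .U2, .m1, .m3, .c3, .l5} : Finset V3).inf L.V5))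
        - Ent L.p5 (({.Q, .U0, .U1, .U2, .m1, .m3, .c3, .l5} : Finset V3).inf L.V5) := rfl
  rw [h6] at h5
  have h7 : Ex L.p5 (fun w => ld (S.T w.2.2) (S.T (L.nn w.1))) =
    ∑ w, L.p5 w * Real.log (1 / dst (S.T w.2.2) (S.T (L.nn w.1))) := rfl
  rw [h7]
  linarith [S.deficit]

theorem XOut.up3 : Ex L.p5 (fun w => up M (vc3 S' L.bh w.1)) ≤ ku := by
  have h := X.fst5.Ex_eq (fun z => up M (vc3 S' L.bh z))
  exact h.trans_le X.hup

theorem XOut.dn3 : Ex L.p5 (fun w => dn M (vc3 S' L.bh w.1)) ≤ kd := by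
  have h := X.fst5.Ex_eq (fun z => dn M (vc3 S' L.bh z))
  exact h.trans_le X.hdn

theorem XOut.up4 : Ex L.p5 (fun w => up M (L.c4 w)) ≤ ku + 5 * (S.κ + 1) + 1.4 := by
  have e : Ex L.p5 (fun w => up M (L.c4 w)) ≤
      Ex L.p5 (fun w => up M (vc3 S' L.bh w.1) + (ld (S.T w.2.2) (S.T (L.nn w.1))
        + Real.log 4)) := by
    refine Ex_mono X.prob5 fun w => ?_
    have h5 := up_mvInf (vc3 S' L.bh w.1) (S.T w.2.2) (S.T (L.nn w.1))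
    unfold Link.c4
    linarith
  rw [Ex_add, Ex_add, Ex_const X.prob5] at e
  linarith [X.up3, X.ld5, log4_le]

theorem XOut.dn4 : Ex L.p5 (fun w => dn M (L.c4 w)) ≤ kd + 5 * (S.κ + 1) + 2.1 := by
  have e : Ex L.p5 (fun w => dn M (L.c4 w)) ≤
      Ex L.p5 (fun w => dn M (vc3 S' L.bh w.1) + (ld (S.T w.2.2) (S.T (L.nn w.1))
        + Real.log 8)) := by
    refine Ex_mono X.prob5 fun w => ?_
    have h5 := dn_mvInf (vc3 S' L.bh w.1) (S.T w.2.2) (S.T (L.nn w.1))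
    unfold Link.c4
    linarith
  rw [Ex_add, Ex_add, Ex_const X.prob5] at e
  linarith [X.dn3, X.ld5, log8_le]

/-! ### costs -/

theorem XOut.f1 : HH L.p5 L.V5 {.c4, .t5, .b, .c3} - HH L.p5 L.V5 {.c4, .t5, .b}
      ≤ 2 * ku + 5 * (S.κ + 1) + 2.1 := by
  refine cost_le L.V5 _ _ V3.c3 (by decide +kernel) _ fun r hr => ?_
  simp only [Finset.mem_insert, Finset.mem_singleton, forall_eq_or_imp, forall_eq, L.V5_c4,
    L.V5_t5, L.V5_b] at hr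
  have h1 := CE_unmvInf X.prob5 r (fun w => vc3 S' L.bh w.1) (fun w => S.T w.2.2)
    (fun w => S.T (L.nn w.1)) (fun w w' _ _ g => ⟨(hr w w' g).2.1, (hr w w' g).2.2,
      (hr w w' g).1⟩)
  rw [Ex_add, Ex_smul] at h1
  have h2 : CE L.p5 (L.V5 V3.c3) r = CE L.p5 (Setoid.ker (fun w => vc3 S' L.bh w.1)) r := rfl
  rw [h2]
  linarith [X.up3, X.ld5, log5_le]

theorem XOut.f2 : HH L.p5 L.V5 {.K, .c4} - HH L.p5 L.V5 {.K}
      ≤ Real.log M + (2 * (ku + 5 * (S.κ + 1) + 1.4) + 1.4) := by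
  refine cost_le L.V5 _ _ V3.c4 (by decide +kernel) _ fun r hr => ?_
  have h1 := CE_param X.prob5 r L.c4 (M_pos G)
  have h2 : CE L.p5 (L.V5 V3.c4) r = CE L.p5 (Setoid.ker L.c4) r := rfl
  rw [h2]
  linarith [X.up4, log3_le]

theorem XOut.f3 : HH L.p5 L.V5 {.y, .l5, .c4, .m1} - HH L.p5 L.V5 {.y, .l5, .c4}
      ≤ m * (kd + 5 * (S.κ + 1) + 4.2) := by
  refine cost_le L.V5 _ _ V3.m1 (by decide +kernel) _ fun r hr => ?_
  simp only [Finset.mem_insert, Finset.mem_singleton, forall_eq_or_imp, forall_eq, L.V5_y,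
    L.V5_l5, L.V5_c4] at hr
  have h1 := CE_closInf X.prob5 G.hδ G.hδ1 G.hM G.hv G.hinj r (fun w => S.l w.2.1)
    (fun w => S'.l (c1 w.1.1)) L.c4
    (fun w w' _ _ g => ⟨(hr w w' g).2.2, (hr w w' g).2.1, (hr w w' g).1⟩)
  have h2 : CE L.p5 (L.V5 V3.m1) r
      = CE L.p5 (Setoid.ker (fun w => S'.l (c1 w.1.1))) r := rfl
  rw [h2]
  refine h1.trans (mul_le_mul_of_nonneg_left ?_ (Nat.cast_nonneg _))
  linarith [X.dn4, log7_le]

theorem XOut.f4 : HH L.p5 L.V5 {.y, .m1, .c4, .l5} - HH L.p5 L.V5 {.y, .m1, .c4} ≤ m * 2.1 := by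
  refine cost_le L.V5 _ _ V3.l5 (by decide +kernel) _ fun r hr => ?_
  simp only [Finset.mem_insert, Finset.mem_singleton, forall_eq_or_imp, forall_eq, L.V5_y,
    L.V5_m1, L.V5_c4] at hr
  have h1 := CE_closInf' X.prob5 G.hδ G.hinj r (fun w => S.l w.2.1)
    (fun w => S'.l (c1 w.1.1)) L.c4
    (fun w w' _ _ g => ⟨(hr w w' g).2.2, (hr w w' g).2.1, (hr w w' g).1⟩)
  have h2 : CE L.p5 (L.V5 V3.l5) r = CE L.p5 (Setoid.ker (fun w => S.l w.2.1)) r := rfl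
  rw [h2]
  exact h1.trans (mul_le_mul_of_nonneg_left log5_le (Nat.cast_nonneg _))

theorem XOut.f5 :
    HH L.p5 L.V5 {.P5, .u, .c3, .t5, .b, .c4, .y} - HH L.p5 L.V5 {.P5, .u, .c3, .t5, .b, .c4}
      ≤ m * (5 * (S.κ + 1) + 3) := by
  refine cost_le L.V5 _ _ V3.y (by decide +kernel) _ fun r hr => ?_
  simp only [Finset.mem_insert, Finset.mem_singleton, forall_eq_or_imp, forall_eq, L.V5_P5,
    L.V5_u, L.V5_c3, L.V5_t5, L.V5_b, L.V5_c4] at hr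
  have h1 := CE_moveInf X.prob5 G.hδ G.hδ1 G.hM G.hx G.hv r (fun w => S.l w.2.1)
    (fun w => S'.l w.1.2.1) (fun w => S'.l (c1 w.1.1))
    (fun w => vc3 S' L.bh w.1) (fun w => S.T w.2.2) (fun w => S.T (L.nn w.1))
    (fun w hw => (X.lw hw hw).p5)
    (fun w w' _ _ g => by
      obtain ⟨g1, g2, g3, g4, g5, g6⟩ := hr w w' g
      exact ⟨g4, g5, g3, g1, g2⟩)
  have h2 : CE L.p5 (L.V5 V3.y) r = CE L.p5 (Setoid.ker (fun w => cell G.δ
    (fun i => G.v (S.l w.2.1) i + ((mvInf (vc3 S' L.bh w.1) (S.T w.2.2)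
      (S.T (L.nn w.1)) : ℤ) : ℝ) / M * G.v (S'.l (c1 w.1.1)) i))) r := rfl
  rw [h2]
  refine h1.trans (mul_le_mul_of_nonneg_left ?_ (Nat.cast_nonneg _))
  linarith [X.ld5, log11_le]

theorem XOut.hyp5 :
    F3.Hyp L.p5 L.V5 S.eK S.eL S.eB S.eT S.eP (Real.log M) S'.eK S'.eL
      (2 * S'.h - S'.Lam) L.sg k k (2 * ku + 5 * (S.κ + 1) + 2.1)
      (2 * (ku + 5 * (S.κ + 1) + 1.4) + 1.4) (m * (kd + 5 * (S.κ + 1) + 4.2)) (m * 2.1)
      (m * (5 * (S.κ + 1) + 3)) where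
  hp := X.prob5
  hr := X.valid5
  hK := X.hK
  hL5 := X.hL5
  h5b := X.h5b
  h55 := X.h55
  hTb := X.hTb
  hT5 := X.hT5
  hPs := X.hPs
  hP5 := X.hP5
  hQ := X.hQ
  hQ1 := X.hQ1
  hQ3 := X.hQ3
  hU := by rw [X.m_U]; exact X.u0
  hU1 := by rw [X.m_U1]; exact X.u1
  hX0 := by
    rw [X.m_X0]
    have h := X.x0
    have e : S'.a = S'.eL - S'.eK := rfl
    linarith
  hG3 := by rw [X.m_G3, X.m_X0]; exact X.g3
  hs := X.hs.ge
  tot := X.tot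
  eTM := S.eTM
  f1 := X.f1
  f2 := X.f2
  f3 := X.f3
  f4 := X.f4
  f5 := X.f5

/-- the system used in the final step -/
noncomputable def XOut.sys5 : Sys G :=
  sysOf X.prob5 L.V5 ({.Q, .U0, .U1, .U2, .c4, .y} : Finset V3) (fun w => S.l w.2.1)
    (fun w => S.T w.2.2)

theorem XOut.sys5_a :
    X.sys5.a = HH L.p5 L.V5 {.Q, .U0, .U1, .U2, .c4, .y, .l5}
      - HH L.p5 L.V5 {.Q, .U0, .U1, .U2, .c4, .y} :=
  sysOf_a X.prob5 L.V5 _ _ V3.l5 rfl (by decide +kernel)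

theorem XOut.sys5_h :
    X.sys5.h = HH L.p5 L.V5 {.Q, .U0, .U1, .U2, .c4, .y, .t5, .P5}
      - HH L.p5 L.V5 {.Q, .U0, .U1, .U2, .c4, .y, .t5} :=
  sysOf_h X.prob5 L.V5 _ _ V3.t5 V3.P5 rfl rfl (by decide +kernel) (by decide +kernel)

theorem XOut.sys5_κ :
    X.sys5.κ = Real.log M - (HH L.p5 L.V5 {.Q, .U0, .U1, .U2, .c4, .y, .l5, .t5}
      - HH L.p5 L.V5 {.Q, .U0, .U1, .U2, .c4, .y, .l5}) :=
  sysOf_κ X.prob5 L.V5 _ _ V3.l5 V3.t5 rfl rfl (by decide +kernel) (by decide +kernel)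

/-- the final step -/
theorem XOut.factF (hk : k ≤ 28 * kk m S'.κ)
    (hku : ku ≤ 30 * (S'.κ + 1)) (hkd : kd ≤ 60 * (S'.κ + 1))
    {β C : ℝ} (hβ : 1 ≤ β) (hC : 0 ≤ C) (ih : SDG G β C) :
    S'.a + β * ((S.a - S.h) + L.sg - (2 * S'.h - S'.Lam))
      ≤ β * (S.h + S'.X L.bh) + 100 * (β + C + 1) * (kk m S'.κ + kk m S.κ) := by
  have i := ih X.sys5
  rw [X.sys5_a, X.sys5_h, X.sys5_κ] at i
  have h := X.hyp5.factF' hβ hC i
  rw [X.m_X] at h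
  have hκ := S.κ_nonneg
  have hκ' := S'.κ_nonneg
  have hm : (0 : ℝ) ≤ (m : ℝ) := Nat.cast_nonneg _
  have e : Real.log M - (S.eB - S.eL) = S.κ := rfl
  rw [e] at h
  have ea : S'.a = S'.eL - S'.eK := rfl
  have eb : S.a = S.eL - S.eK := rfl
  have ec : S.h = S.eP - S.eT := rfl
  have a1 : 0 ≤ (m : ℝ) * (S.κ + 1) := mul_nonneg hm (by linarith)
  have a2 : 0 ≤ (m : ℝ) * (S'.κ + 1) := mul_nonneg hm (by linarith)
  have e1 : kk m S.κ = 34 * (m * (S.κ + 1)) + 34 * (S.κ + 1) := by unfold kk; ring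
  have e2 : kk m S'.κ = 34 * (m * (S'.κ + 1)) + 34 * (S'.κ + 1) := by
    unfold kk; ring
  set E := kk m S'.κ + kk m S.κ with hE
  have hE0 : 0 ≤ E := by rw [hE]; linarith
  have b1 : S.κ ≤ E := by rw [hE]; linarith
  have b2 : 2 * ku + 5 * (S.κ + 1) + 2.1 ≤ 2 * E := by rw [hE]; linarith
  have b3 : 2 * (ku + 5 * (S.κ + 1) + 1.4) + 1.4 ≤ 2 * E := by rw [hE]; linarith
  have b4 : (m : ℝ) * (kd + 5 * (S.κ + 1) + 4.2) ≤ 2 * E := by
    have c1 : (m : ℝ) * (kd + 5 * (S.κ + 1) + 4.2) ≤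
        m * (60 * (S'.κ + 1) + 10 * (S.κ + 1)) :=
      mul_le_mul_of_nonneg_left (by linarith) hm
    rw [hE]; linarith
  have b5 : (m : ℝ) * 2.1 ≤ E := by
    have c1 : (m : ℝ) * 2.1 ≤ m * (10 * (S.κ + 1)) :=
      mul_le_mul_of_nonneg_left (by linarith) hm
    rw [hE]; linarith
  have b6 : (m : ℝ) * (5 * (S.κ + 1) + 3) ≤ E := by
    have c1 : (m : ℝ) * (5 * (S.κ + 1) + 3) ≤ m * (10 * (S.κ + 1)) :=
      mul_le_mul_of_nonneg_left (by linarith) hm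
    rw [hE]; linarith
  have b7 : k ≤ 28 * E := by rw [hE]; linarith
  have b8 : 1 ≤ E := by rw [hE]; linarith
  have b9 : 0 ≤ (m : ℝ) * 2.1 := by positivity
  have c1 : β * (2 * S.κ + k + 2 * k + 3 * (2 * ku + 5 * (S.κ + 1) + 2.1)
      + 2 * (2 * (ku + 5 * (S.κ + 1) + 1.4) + 1.4) + m * 2.1 + m * (5 * (S.κ + 1) + 3))
      ≤ β * (98 * E) := mul_le_mul_of_nonneg_left (by linarith) (by linarith)
  have c2 : C * (S.κ + k + (2 * ku + 5 * (S.κ + 1) + 2.1)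
      + (2 * (ku + 5 * (S.κ + 1) + 1.4) + 1.4) + 1) ≤ C * (98 * E) :=
    mul_le_mul_of_nonneg_left (by linarith) hC
  have c3 : β * (98 * E) + C * (98 * E) + 2 * E ≤ 100 * (β + C + 1) * E := by
    nlinarith [mul_nonneg hC hE0, mul_nonneg (by linarith : (0 : ℝ) ≤ β) hE0]
  rw [ea, eb, ec]
  linarith

end

end Pool.Agent.Helper8.Kak
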