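import Pool.Agent.Helper6.Kak.Defs
import Pool.Agent.Helper6.Kak.Pair
import Pool.Agent.Helper8.Kak.L1Cost
import Pool.Agent.Helper8.Kak.Move

/-!
# The base case of the hybrid induction: the plane lemma implies `SDp m 2 1`
-/

set_option autoImplicit false

namespace Pool.Agent.Helper75.KakHB

open Pool.Agent.Helper8.Kak Pool.Agent.Helper6.Kak

/-- the entropic plane lemma -/
def PlaneLem (m : ℕ) : Prop :=
  ∃ C : ℝ, 0 ≤ C ∧ ∀ (M : ℕ) (G : Geo m M) (Ω : Type) [Fintype Ω] (p : Ω → ℝ), IsProb p →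
    ∀ (K : Setoid Ω) (l0 l1 : Ω → G.L) (T0 R : Ω → Fin M) (k : Ω → ℕ),
      (∀ ω, 0 < p ω → G.P (l0 ω) (T0 ω) = G.P (l1 ω) (T0 ω)) →
      (∀ ω ω', 0 < p ω → 0 < p ω' → K ω ω' → k ω = k ω') →
      (∀ ω, 0 < p ω → k ω ≤ JJ G.δ) →
      (∀ ω, 0 < p ω → ∀ i, |G.v (l0 ω) i - G.v (l1 ω) i| ≤ 8 * (1 / 2) ^ k ω) →
      (∀ ω, 0 < p ω → k ω = JJ G.δ ∨ ∃ i, (1 / 2) ^ k ω < |G.v (l0 ω) i - G.v (l1 ω) i|) →
      CE p (Setoid.ker l1) (K ⊓ Setoid.ker l0 ⊓ Setoid.ker R ⊓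
          Setoid.ker (fun ω => G.P (l1 ω) (R ω)))
        ≤ C * ((Real.log M - CE p (Setoid.ker R) (K ⊓ Setoid.ker l0 ⊓ Setoid.ker l1 ⊓
            Setoid.ker T0)) + ell M)

/-- random variables of the base space -/
inductive VB
  | K | l0 | l1 | T0 | R | P0 | PR
  deriving DecidableEq

/-- deterministic relations -/
def brules : List (VB × List (Finset VB)) :=
  [(.P0, [{.l0, .T0}, {.l1, .T0}]), (.PR, [{.l1, .R}])]

theorem one_le_ell {M : ℕ} (h : 1 ≤ M) : 1 ≤ ell M := by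
  unfold ell
  have h1 : 0 ≤ Real.log M := Real.log_nonneg (by exact_mod_cast h)
  have h2 : Real.log (Real.exp 1) ≤ Real.log (Real.log M + 3) := by
    apply Real.log_le_log (Real.exp_pos 1)
    have := Real.exp_one_lt_d9
    linarith
  rwa [Real.log_exp] at h2

section

variable {m M : ℕ} {G : Geo m M} (S : PSys G)

/-- the glued space: a pair of lines and another height on the second one -/
noncomputable def pB : S.Ω × S.Ω → ℝ :=
  glue S.p S.p (fL S.K S.l ∘ S.σ) (fL S.K S.l)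

theorem pB_law (c : Quotient S.K × G.L) :
    law S.p (fL S.K S.l ∘ S.σ) c = law S.p (fL S.K S.l) c := S.mp.law_eq _ _

theorem pB_prob : IsProb (pB S) := glue_isProb S.hp S.hp (pB_law S)

theorem pB_fst : MP (pB S) S.p Prod.fst := glue_fst S.hp.1 (pB_law S)

theorem pB_snd : MP (pB S) S.p Prod.snd := glue_snd S.hp.1 (pB_law S)

/-- the random variables -/
noncomputable def BV : VB → Setoid (S.Ω × S.Ω)
  | .K => Setoid.comap Prod.fst S.K
  | .l0 => Setoid.ker (fun y => S.l y.1)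
  | .l1 => Setoid.ker (fun y => S.l (S.σ y.1))
  | .T0 => Setoid.ker (fun y => S.T y.1)
  | .R => Setoid.ker (fun y => S.T y.2)
  | .P0 => Setoid.ker (fun y => G.P (S.l y.1) (S.T y.1))
  | .PR => Setoid.ker (fun y => G.P (S.l y.2) (S.T y.2))

@[simp] theorem BV_K (y y') : BV S .K y y' ↔ S.K y.1 y'.1 := Iff.rfl
@[simp] theorem BV_l0 (y y') : BV S .l0 y y' ↔ S.l y.1 = S.l y'.1 := Iff.rfl
@[simp] theorem BV_l1 (y y') : BV S .l1 y y' ↔ S.l (S.σ y.1) = S.l (S.σ y'.1) := Iff.rfl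
@[simp] theorem BV_T0 (y y') : BV S .T0 y y' ↔ S.T y.1 = S.T y'.1 := Iff.rfl
@[simp] theorem BV_R (y y') : BV S .R y y' ↔ S.T y.2 = S.T y'.2 := Iff.rfl
@[simp] theorem BV_P0 (y y') : BV S .P0 y y' ↔
  G.P (S.l y.1) (S.T y.1) = G.P (S.l y'.1) (S.T y'.1) := Iff.rfl
@[simp] theorem BV_PR (y y') : BV S .PR y y' ↔
  G.P (S.l y.2) (S.T y.2) = G.P (S.l y'.2) (S.T y'.2) := Iff.rfl

/-- relations on the support -/
theorem pB_link {y : S.Ω × S.Ω} (h : 0 < pB S y) :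
    0 < S.p y.1 ∧ 0 < S.p y.2 ∧ S.K (S.σ y.1) y.2 ∧ S.l (S.σ y.1) = S.l y.2 ∧
      S.K y.1 (S.σ y.1) ∧ S.T (S.σ y.1) = S.T y.1 ∧
      G.P (S.l (S.σ y.1)) (S.T y.1) = G.P (S.l y.1) (S.T y.1) := by
  have h1 := (pB_fst S).pos (pB_prob S).1 h
  have h2 := (pB_snd S).pos (pB_prob S).1 h
  have h3 : fL S.K S.l (S.σ y.1) = fL S.K S.l y.2 :=
    glue_link (f := fL S.K S.l ∘ S.σ) (g := fL S.K S.l) h
  have h3 := fL_eq.1 h3
  exact ⟨h1, h2, h3.1, h3.2, S.Kσ _ h1, S.Tσ _ h1, S.Pσ _ h1⟩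

theorem pB_valid : Valid (pB S) (BV S) brules := by
  intro r hr D hD y y' hy hy' h
  have k := pB_link S hy
  have k' := pB_link S hy'
  simp only [brules, List.mem_cons, List.not_mem_nil, or_false] at hr
  rcases hr with rfl | rfl <;>
    simp only [List.mem_cons, List.not_mem_nil, or_false] at hD
  · rcases hD with rfl | rfl <;>
      simp only [Finset.mem_insert, Finset.mem_singleton, forall_eq_or_imp, forall_eq, BV_l0,
        BV_T0, BV_l1] at h ⊢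
    · rw [BV_P0, h.1, h.2]
    · rw [BV_P0, ← k.2.2.2.2.2.2, ← k'.2.2.2.2.2.2, h.1, h.2]
  · subst hD
    simp only [Finset.mem_insert, Finset.mem_singleton, forall_eq_or_imp, forall_eq, BV_l1,
      BV_R] at h ⊢
    rw [BV_PR, ← k.2.2.2.1, ← k'.2.2.2.1, h.1, h.2]

theorem pB_K {y y' : S.Ω × S.Ω} (h : 0 < pB S y) (h' : 0 < pB S y') :
    S.K y.1 y'.1 ↔ S.K y.2 y'.2 := by
  have k := pB_link S h
  have k' := pB_link S h'
  have a := S.K.trans k.2.2.2.2.1 k.2.2.1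
  have a' := S.K.trans k'.2.2.2.2.1 k'.2.2.1
  exact ⟨fun g => S.K.trans (S.K.trans (S.K.symm a) g) a',
    fun g => S.K.trans (S.K.trans a g) (S.K.symm a')⟩

theorem eI_le : S.eB2 = 2 * S.eB - S.eP - S.ι := by
  unfold PSys.ι
  ring

theorem ι_nonneg : 0 ≤ S.ι := by
  unfold PSys.ι PSys.eB2
  have h := submod S.hp (Setoid.ker S.l) (Setoid.ker (fun ω => S.l (S.σ ω)))
    (S.K ⊓ Setoid.ker S.T ⊓ Setoid.ker (fun ω => G.P (S.l ω) (S.T ω)))
  have e1 : Ent S.p (Setoid.ker S.l ⊓ (Setoid.ker (fun ω => S.l (S.σ ω)) ⊓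
      (S.K ⊓ Setoid.ker S.T ⊓ Setoid.ker (fun ω => G.P (S.l ω) (S.T ω)))))
      = Ent S.p (S.K ⊓ Setoid.ker S.l ⊓ Setoid.ker (fun ω => S.l (S.σ ω)) ⊓ Setoid.ker S.T) := by
    refine Ent_congr' S.hp fun ω ω' _ _ => ?_
    constructor
    · rintro ⟨h1, h2, ⟨h3, h4⟩, h5⟩
      exact ⟨⟨⟨h3, h1⟩, h2⟩, h4⟩
    · rintro ⟨⟨⟨h3, h1⟩, h2⟩, h4⟩
      refine ⟨h1, h2, ⟨h3, h4⟩, ?_⟩
      have h1' : S.l ω = S.l ω' := h1
      have h4' : S.T ω = S.T ω' := h4
      show G.P (S.l ω) (S.T ω) = G.P (S.l ω') (S.T ω')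
      rw [h1', h4']
  have e2 : Ent S.p (Setoid.ker S.l ⊓
      (S.K ⊓ Setoid.ker S.T ⊓ Setoid.ker (fun ω => G.P (S.l ω) (S.T ω)))) = S.eB := by
    unfold Sys.eB
    refine Ent_congr' S.hp fun ω ω' _ _ => ?_
    constructor
    · rintro ⟨h1, ⟨h3, h4⟩, h5⟩
      exact ⟨⟨h3, h1⟩, h4⟩
    · rintro ⟨⟨h3, h1⟩, h4⟩
      refine ⟨h1, ⟨h3, h4⟩, ?_⟩
      have h1' : S.l ω = S.l ω' := h1
      have h4' : S.T ω = S.T ω' := h4
      show G.P (S.l ω) (S.T ω) = G.P (S.l ω') (S.T ω')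
      rw [h1', h4']
  have e3 : Ent S.p (Setoid.ker (fun ω => S.l (S.σ ω)) ⊓
      (S.K ⊓ Setoid.ker S.T ⊓ Setoid.ker (fun ω => G.P (S.l ω) (S.T ω)))) = S.eB := by
    rw [← e2]
    refine Eq.trans ?_ (S.mp.Ent_eq (Setoid.ker S.l ⊓
      (S.K ⊓ Setoid.ker S.T ⊓ Setoid.ker (fun ω => G.P (S.l ω) (S.T ω)))))
    refine Ent_congr' S.hp fun ω ω' h h' => ?_
    have k1 := S.Kσ ω h
    have k2 := S.Kσ ω' h'
    constructor
    · rintro ⟨h1, ⟨h3, h4⟩, h5⟩
      have h4' : S.T ω = S.T ω' := h4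
      have h1' : S.l (S.σ ω) = S.l (S.σ ω') := h1
      refine ⟨h1, ⟨S.K.trans (S.K.symm k1) (S.K.trans h3 k2), ?_⟩, ?_⟩
      · show S.T (S.σ ω) = S.T (S.σ ω')
        rw [S.Tσ ω h, S.Tσ ω' h', h4']
      · show G.P (S.l (S.σ ω)) (S.T (S.σ ω)) = G.P (S.l (S.σ ω')) (S.T (S.σ ω'))
        rw [h1', S.Tσ ω h, S.Tσ ω' h', h4']
    · rintro ⟨h1, ⟨h3, h4⟩, h5⟩
      have h4' : S.T (S.σ ω) = S.T (S.σ ω') := h4
      have h1' : S.l (S.σ ω) = S.l (S.σ ω') := h1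
      have h3' : S.K (S.σ ω) (S.σ ω') := h3
      rw [S.Tσ ω h, S.Tσ ω' h'] at h4'
      refine ⟨h1, ⟨S.K.trans k1 (S.K.trans h3' (S.K.symm k2)), h4'⟩, ?_⟩
      show G.P (S.l ω) (S.T ω) = G.P (S.l ω') (S.T ω')
      rw [← S.Pσ ω h, ← S.Pσ ω' h', h1', h4']
  rw [e1, e2, e3] at h
  have e4 : Ent S.p (S.K ⊓ Setoid.ker S.T ⊓ Setoid.ker (fun ω => G.P (S.l ω) (S.T ω))) = S.eP := rfl
  rw [e4] at h
  linarith

/-- the two lines of a pair determine the height up to an interval -/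
theorem CE_T0 {Ω : Type} [Fintype Ω] {p : Ω → ℝ} (hp : IsProb p) (K : Setoid Ω)
    (l0 l1 : Ω → G.L) (T0 : Ω → Fin M) (k : Ω → ℕ)
    (hP : ∀ ω, 0 < p ω → G.P (l0 ω) (T0 ω) = G.P (l1 ω) (T0 ω))
    (hk : ∀ ω ω', 0 < p ω → 0 < p ω' → K ω ω' → k ω = k ω')
    (ha : ∀ ω, 0 < p ω → k ω = JJ G.δ ∨ ∃ i, (1 / 2) ^ k ω < |G.v (l0 ω) i - G.v (l1 ω) i|) :
    CE p (Setoid.ker T0) (K ⊓ Setoid.ker l0 ⊓ Setoid.ker l1)
      ≤ Real.log M - Ex p (fun ω => gap G.δ (k ω)) + Real.log 5 := by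
  have hδ := G.hδ
  have hM := G.hM
  have hM0 : (0 : ℝ) < M := by
    by_contra h
    push Not at h
    nlinarith
  have h := CE_hgt hp (K ⊓ Setoid.ker l0 ⊓ Setoid.ker l1) T0
    (fun ω => 2 * G.δ * M * 2 ^ k ω) (fun ω => by positivity)
    (fun ω ω' h0 h0' g => by
      show 2 * G.δ * M * 2 ^ k ω = 2 * G.δ * M * 2 ^ k ω'
      rw [hk ω ω' h0 h0' g.1.1]) ?_
  · refine h.trans ?_
    have e : ∀ ω, p ω * Real.log (2 * (2 * G.δ * M * 2 ^ k ω) + 1)
        ≤ p ω * (Real.log M + Real.log 5) - p ω * gap G.δ (k ω) := by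
      intro ω
      rw [← mul_sub]
      refine mul_le_mul_of_nonneg_left ?_ (hp.1 ω)
      have h2 : (1 : ℝ) ≤ 2 ^ k ω := one_le_pow₀ (by norm_num)
      have h3 : 2 * (2 * G.δ * M * 2 ^ k ω) + 1 ≤ 5 * (G.δ * M * 2 ^ k ω) := by
        nlinarith
      refine (Real.log_le_log (by positivity) h3).trans (le_of_eq ?_)
      rw [Real.log_mul (by norm_num) (by positivity), Real.log_mul (by positivity) (by positivity),
        Real.log_mul (by positivity) (by positivity), Real.log_pow]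
      unfold gap
      rw [one_div, Real.log_inv]
      ring
    have e2 := Finset.sum_le_sum fun ω (_ : ω ∈ Finset.univ) => e ω
    rw [Finset.sum_sub_distrib, ← Finset.sum_mul, hp.2] at e2
    unfold Ex
    linarith
  · intro ω ω' h0 h0' g
    obtain ⟨⟨g1, g2⟩, g3⟩ := g
    have g2' : l0 ω = l0 ω' := g2
    have g3' : l1 ω = l1 ω' := g3
    have hb := ht_diff (T0 ω) (T0 ω')
    have eh : ∀ a b : Fin M, ((a : ℕ) : ℝ) - ((b : ℕ) : ℝ) = (ht a - ht b) * M := by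
      intro a b
      unfold ht
      field_simp
    rw [eh, abs_mul, abs_of_pos hM0]
    show |ht (T0 ω) - ht (T0 ω')| * M ≤ 2 * G.δ * M * 2 ^ k ω
    have key : |ht (T0 ω) - ht (T0 ω')| ≤ 2 * G.δ * 2 ^ k ω := by
      rcases ha ω h0 with h1 | ⟨i, h1⟩
      · have h2 : 1 ≤ G.δ * 2 ^ k ω := by
          have h3 : Real.logb 2 (1 / G.δ) ≤ (JJ G.δ : ℝ) := Nat.le_ceil _
          rw [Real.logb_le_iff_le_rpow (by norm_num) (by positivity), Real.rpow_natCast] at h3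
          rw [h1]
          rw [div_le_iff₀ hδ] at h3
          linarith
        linarith
      · have a1 := floor_eq_near hδ (congrFun (hP ω h0) i)
        have a2 := floor_eq_near hδ (congrFun (hP ω' h0') i)
        rw [← g2', ← g3'] at a2
        simp only [pnt] at a1 a2
        have h5 : |(ht (T0 ω) - ht (T0 ω')) * (G.v (l0 ω) i - G.v (l1 ω) i)| ≤ 2 * G.δ := by
          have e : (ht (T0 ω) - ht (T0 ω')) * (G.v (l0 ω) i - G.v (l1 ω) i)
            = (G.x (l0 ω) i + ht (T0 ω) * G.v (l0 ω) i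
                - (G.x (l1 ω) i + ht (T0 ω) * G.v (l1 ω) i))
              - (G.x (l0 ω) i + ht (T0 ω') * G.v (l0 ω) i
                - (G.x (l1 ω) i + ht (T0 ω') * G.v (l1 ω) i)) := by ring
          rw [e]
          exact (abs_sub _ _).trans (by linarith)
        rw [abs_mul] at h5
        have h6 : |ht (T0 ω) - ht (T0 ω')| * (1 / 2) ^ k ω ≤ 2 * G.δ :=
          (mul_le_mul_of_nonneg_left h1.le (abs_nonneg _)).trans h5
        have h7 : (0 : ℝ) < (1 / 2) ^ k ω := by positivity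
        have h8 : ((1 / 2 : ℝ)) ^ k ω * 2 ^ k ω = 1 := by
          rw [← mul_pow]; norm_num
        calc |ht (T0 ω) - ht (T0 ω')| = |ht (T0 ω) - ht (T0 ω')| * (1 / 2) ^ k ω * 2 ^ k ω := by
              rw [mul_assoc, h8, mul_one]
          _ ≤ 2 * G.δ * 2 ^ k ω := mul_le_mul_of_nonneg_right h6 (by positivity)
    calc _ ≤ 2 * G.δ * 2 ^ k ω * M := mul_le_mul_of_nonneg_right key hM0.le
      _ = _ := by ring

end

open VB in
/-- the base case of the induction -/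
theorem base (m : ℕ) (hP : PlaneLem m) : SDp m 2 1 := by
  obtain ⟨C, hC, H⟩ := hP
  refine ⟨C + 5, by positivity, fun M G S => ?_⟩
  have hpB := pB_prob S
  have hfst := pB_fst S
  have hsnd := pB_snd S
  have hV := pB_valid S
  have hM0 : (0 : ℝ) < M := by
    have := G.hM
    have := G.hδ
    by_contra h
    push Not at h
    nlinarith
  have hM1 : 1 ≤ M := by exact_mod_cast hM0
  have hell := one_le_ell hM1
  have hκ : 0 ≤ S.κ := S.toSys.κ_nonneg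
  have hι := ι_nonneg S
  -- entropies
  have eK : HH (pB S) (BV S) {K} = S.eK :=
    HH_coord hpB hfst (BV S) _ S.K fun y y' _ _ => by simp
  have eL0 : HH (pB S) (BV S) {K, l0} = S.eL :=
    HH_coord hpB hfst (BV S) _ _ fun y y' _ _ => by
      simp only [Finset.mem_insert, Finset.mem_singleton, forall_eq_or_imp, forall_eq, BV_K, BV_l0]
      exact Iff.rfl
  have eR : HH (pB S) (BV S) {K, R} = S.eT :=
    HH_coord hpB hsnd (BV S) _ _ fun y y' h h' => by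
      simp only [Finset.mem_insert, Finset.mem_singleton, forall_eq_or_imp, forall_eq, BV_K, BV_R]
      rw [pB_K S h h']
      exact Iff.rfl
  have ePR : HH (pB S) (BV S) {K, R, PR} = S.eP :=
    HH_coord hpB hsnd (BV S) _ _ fun y y' h h' => by
      simp only [Finset.mem_insert, Finset.mem_singleton, forall_eq_or_imp, forall_eq, BV_K, BV_R,
        BV_PR]
      rw [pB_K S h h', ← and_assoc]
      exact Iff.rfl
  have eB2 : HH (pB S) (BV S) {K, l0, l1, T0} = S.eB2 :=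
    HH_coord hpB hfst (BV S) _ _ fun y y' h h' => by
      simp only [Finset.mem_insert, Finset.mem_singleton, forall_eq_or_imp, forall_eq, BV_K, BV_l0,
        BV_l1, BV_T0]
      rw [← and_assoc, ← and_assoc]
      exact Iff.rfl
  have eJ : HH (pB S) (BV S) {K, l0, l1, T0, R} = S.eB2 + S.eB - S.eL := by
    have h := Ent_glue S.hp S.hp (pB_law S)
      (S.K ⊓ Setoid.ker S.l ⊓ Setoid.ker (fun ω => S.l (S.σ ω)) ⊓ Setoid.ker S.T)
      (S.K ⊓ Setoid.ker S.l ⊓ Setoid.ker S.T)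
      (fun a a' ha ha' h => by
        show fL S.K S.l (S.σ a) = fL S.K S.l (S.σ a')
        rw [fL_eq]
        exact ⟨S.K.trans (S.K.symm (S.Kσ _ ha)) (S.K.trans h.1.1.1 (S.Kσ _ ha')), h.1.2⟩)
      (fun b b' _ _ h => fL_eq.2 ⟨h.1.1, h.1.2⟩)
    have e1 : Ent S.p (Setoid.ker (fL S.K S.l ∘ S.σ)) = S.eL := by
      refine Eq.trans (b := Ent S.p (Setoid.comap S.σ (S.K ⊓ Setoid.ker S.l))) ?_ (S.mp.Ent_eq _)
      exact Ent_congr' S.hp fun ω ω' _ _ => fL_eq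
    rw [e1] at h
    have e2 : HH (pB S) (BV S) {K, l0, l1, T0, R} = Ent (glue S.p S.p (fL S.K S.l ∘ S.σ)
        (fL S.K S.l)) (Setoid.comap Prod.fst (S.K ⊓ Setoid.ker S.l ⊓
          Setoid.ker (fun ω => S.l (S.σ ω)) ⊓ Setoid.ker S.T) ⊓
          Setoid.comap Prod.snd (S.K ⊓ Setoid.ker S.l ⊓ Setoid.ker S.T)) := by
      unfold HH
      refine Ent_congr' hpB fun y y' h h' => ?_
      rw [inf_rel]
      simp only [Finset.mem_insert, Finset.mem_singleton, forall_eq_or_imp, forall_eq, BV_K, BV_l0,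
        BV_l1, BV_T0, BV_R]
      have k := pB_link S h
      have k' := pB_link S h'
      constructor
      · rintro ⟨g1, g2, g3, g4, g5⟩
        refine ⟨⟨⟨⟨g1, g2⟩, g3⟩, g4⟩, ⟨⟨(pB_K S h h').1 g1, ?_⟩, g5⟩⟩
        show S.l y.2 = S.l y'.2
        rw [← k.2.2.2.1, ← k'.2.2.2.1]
        exact g3
      · rintro ⟨⟨⟨⟨g1, g2⟩, g3⟩, g4⟩, ⟨_, g5⟩⟩
        exact ⟨g1, g2, g3, g4, g5⟩
    rw [e2, h]
    rfl
  -- the height given the two lines
  have cT := CE_T0 hpB (Setoid.comap Prod.fst S.K) (fun y : S.Ω × S.Ω => S.l y.1)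
    (fun y => S.l (S.σ y.1)) (fun y => S.T y.1) (fun y => S.k y.1)
    (fun y h => ((pB_link S h).2.2.2.2.2.2).symm)
    (fun y y' h h' g => S.kK _ _ (pB_link S h).1 (pB_link S h').1 g)
    (fun y h => S.ang _ (pB_link S h).1)
  have eA : Ex (pB S) (fun y => gap G.δ (S.k y.1)) = S.A := hfst.sum_comp (fun ω => gap G.δ (S.k ω))
  have cT' : CE (pB S) (Setoid.ker fun y : S.Ω × S.Ω => S.T y.1)
      (Setoid.comap Prod.fst S.K ⊓ (Setoid.ker fun y : S.Ω × S.Ω => S.l y.1) ⊓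
        Setoid.ker fun y : S.Ω × S.Ω => S.l (S.σ y.1))
      = HH (pB S) (BV S) {K, l0, l1, T0} - HH (pB S) (BV S) {K, l0, l1} := by
    unfold CE HH
    congr 1
    · refine Ent_congr' hpB fun y y' _ _ => ?_
      rw [inf_rel]
      simp only [Finset.mem_insert, Finset.mem_singleton, forall_eq_or_imp, forall_eq, BV_K, BV_l0,
        BV_l1, BV_T0]
      exact ⟨fun g => ⟨g.2.1.1, g.2.1.2, g.2.2, g.1⟩, fun g => ⟨g.2.2.2, ⟨g.1, g.2.1⟩, g.2.2.1⟩⟩
    · refine Ent_congr' hpB fun y y' _ _ => ?_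
      rw [inf_rel]
      simp only [Finset.mem_insert, Finset.mem_singleton, forall_eq_or_imp, forall_eq, BV_K, BV_l0,
        BV_l1]
      exact ⟨fun g => ⟨g.1.1, g.1.2, g.2⟩, fun g => ⟨⟨g.1, g.2.1⟩, g.2.2⟩⟩
  rw [cT', eA] at cT
  -- the plane lemma
  have cP := H M G (S.Ω × S.Ω) (pB S) hpB (Setoid.comap Prod.fst S.K)
    (fun y : S.Ω × S.Ω => S.l y.1)
    (fun y => S.l (S.σ y.1)) (fun y => S.T y.1) (fun y => S.T y.2) (fun y => S.k y.1)
    (fun y h => ((pB_link S h).2.2.2.2.2.2).symm)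
    (fun y y' h h' g => S.kK _ _ (pB_link S h).1 (pB_link S h').1 g)
    (fun y h => S.kJ _ (pB_link S h).1)
    (fun y h i => S.tub _ _ (pB_link S h).1
      (S.mp.pos S.hp.1 (pB_link S h).1) (pB_link S h).2.2.2.2.1 i)
    (fun y h => S.ang _ (pB_link S h).1)
  have cP1 : CE (pB S) (Setoid.ker fun y : S.Ω × S.Ω => S.T y.2)
      (Setoid.comap Prod.fst S.K ⊓ (Setoid.ker fun y : S.Ω × S.Ω => S.l y.1) ⊓
        (Setoid.ker fun y : S.Ω × S.Ω => S.l (S.σ y.1)) ⊓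
        Setoid.ker fun y : S.Ω × S.Ω => S.T y.1)
      = HH (pB S) (BV S) {K, l0, l1, T0, R} - HH (pB S) (BV S) {K, l0, l1, T0} := by
    unfold CE HH
    congr 1
    · refine Ent_congr' hpB fun y y' _ _ => ?_
      rw [inf_rel]
      simp only [Finset.mem_insert, Finset.mem_singleton, forall_eq_or_imp, forall_eq, BV_K, BV_l0,
        BV_l1, BV_T0, BV_R]
      exact ⟨fun g => ⟨g.2.1.1.1, g.2.1.1.2, g.2.1.2, g.2.2, g.1⟩,
        fun g => ⟨g.2.2.2.2, ⟨⟨g.1, g.2.1⟩, g.2.2.1⟩, g.2.2.2.1⟩⟩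
    · refine Ent_congr' hpB fun y y' _ _ => ?_
      rw [inf_rel]
      simp only [Finset.mem_insert, Finset.mem_singleton, forall_eq_or_imp, forall_eq, BV_K, BV_l0,
        BV_l1, BV_T0]
      exact ⟨fun g => ⟨g.1.1.1, g.1.1.2, g.1.2, g.2⟩, fun g => ⟨⟨⟨g.1, g.2.1⟩, g.2.2.1⟩, g.2.2.2⟩⟩
  have cP2 : CE (pB S) (Setoid.ker fun y : S.Ω × S.Ω => S.l (S.σ y.1))
      (Setoid.comap Prod.fst S.K ⊓ (Setoid.ker fun y : S.Ω × S.Ω => S.l y.1) ⊓
        (Setoid.ker fun y : S.Ω × S.Ω => S.T y.2) ⊓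
        Setoid.ker fun y : S.Ω × S.Ω => G.P (S.l (S.σ y.1)) (S.T y.2))
      = HH (pB S) (BV S) {K, l0, R, PR, l1} - HH (pB S) (BV S) {K, l0, R, PR} := by
    unfold CE HH
    congr 1
    · refine Ent_congr' hpB fun y y' h h' => ?_
      rw [inf_rel]
      simp only [Finset.mem_insert, Finset.mem_singleton, forall_eq_or_imp, forall_eq, BV_K, BV_l0,
        BV_l1, BV_PR, BV_R]
      rw [← (pB_link S h).2.2.2.1, ← (pB_link S h').2.2.2.1]
      exact ⟨fun g => ⟨g.2.1.1.1, g.2.1.1.2, g.2.1.2, g.2.2, g.1⟩,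
        fun g => ⟨g.2.2.2.2, ⟨⟨g.1, g.2.1⟩, g.2.2.1⟩, g.2.2.2.1⟩⟩
    · refine Ent_congr' hpB fun y y' h h' => ?_
      rw [inf_rel]
      simp only [Finset.mem_insert, Finset.mem_singleton, forall_eq_or_imp, forall_eq, BV_K, BV_l0,
        BV_PR, BV_R]
      rw [← (pB_link S h).2.2.2.1, ← (pB_link S h').2.2.2.1]
      exact ⟨fun g => ⟨g.1.1.1, g.1.1.2, g.1.2, g.2⟩, fun g => ⟨⟨⟨g.1, g.2.1⟩, g.2.2.1⟩, g.2.2.2⟩⟩
  rw [cP1, cP2] at cP
  -- Shannon inequalities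
  have i1 := HH_INC hpB hV {K, R} {K, R, PR} {K, l0, R} {K, l0, R, PR}
    (by decide +kernel) (by decide +kernel)
  have i2 := HH_INC hpB hV {K, l0, l1} {K, l0, l1, R} {K, l0, l1, T0} {K, l0, l1, T0, R}
    (by decide +kernel) (by decide +kernel)
  have i3 := HH_MN hpB hV {K, l0, l1, R} {K, l0, R, PR, l1} (by decide +kernel)
  have i4 : HH (pB S) (BV S) {K, l0, R} - HH (pB S) (BV S) {K, l0} ≤ Real.log M := by
    have h := Ent_height_le hpB (Finset.inf {K, l0} (BV S)) (fun y : S.Ω × S.Ω => S.T y.2)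
    refine le_trans (le_of_eq ?_) h
    unfold HH
    congr 1
    refine Ent_congr' hpB fun y y' _ _ => ?_
    rw [inf_rel]
    constructor
    · intro g
      refine ⟨g R (by simp), (inf_rel _ _ _ _).2 fun i hi => g i ?_⟩
      simp only [Finset.mem_insert, Finset.mem_singleton] at hi ⊢
      tauto
    · rintro ⟨g1, g2⟩ i hi
      rw [inf_rel] at g2
      simp only [Finset.mem_insert, Finset.mem_singleton] at hi
      rcases hi with rfl | rfl | rfl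
      · exact g2 K (by simp)
      · exact g2 l0 (by simp)
      · exact g1
  have i5 : S.eT ≤ S.eK + Real.log M := by
    have h := Ent_height_le S.hp S.K S.T
    rw [inf_comm] at h
    unfold Sys.eT Sys.eK
    linarith
  have l5 : Real.log 5 ≤ 2 := by
    have h1 : Real.log 5 ≤ Real.log (Real.exp 2) := by
      apply Real.log_le_log (by norm_num)
      have h2 : Real.exp 2 = Real.exp 1 * Real.exp 1 := by rw [← Real.exp_add]; norm_num
      rw [h2]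
      have := Real.exp_one_gt_d9
      nlinarith
    rwa [Real.log_exp] at h1
  have eI := eI_le S
  have eκ : S.κ = Real.log M - (S.eB - S.eL) := rfl
  have ea : S.a = S.eL - S.eK := rfl
  have eh : S.h = S.eP - S.eT := rfl
  have eJ' : Real.log M - (HH (pB S) (BV S) {K, l0, l1, T0, R} - HH (pB S) (BV S) {K, l0, l1, T0})
      = S.κ := by
    rw [eJ, eB2, eκ]
    ring
  rw [eJ'] at cP
  have f1 : C * (S.κ + ell M) ≤ C * (S.κ + S.ι + ell M) :=
    mul_le_mul_of_nonneg_left (by linarith) hC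
  have f2 : (C + 5) * (S.κ + S.ι + ell M) = C * (S.κ + S.ι + ell M) + 5 * (S.κ + S.ι + ell M) := by
    ring
  rw [f2]
  linarith

end Pool.Agent.Helper75.KakHB
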