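import Pool.Agent.Helper6.Kak.HDefs

/-!
# Near uniformity of the parameters of the hybrid step
-/

set_option autoImplicit false

namespace Pool.Agent.Helper75.KakHB

open Pool.Agent.Helper8.Kak Pool.Agent.Helper6.Kak

section

open VH

variable {Ω : Type} [Fintype Ω] {p : Ω → ℝ} {V : VH → Setoid Ω}
  {eK eL eB eT eP eB2 LM Lam kk : ℝ}

theorem Binc (h : Hy.Base p V eK eL eB eT eP eB2 LM Lam) (A A' B B' : Finset VH)
    (hB' : B' ⊆ cl Hy.rules (A' ∪ B)) (hA : A ⊆ cl Hy.rules A' ∩ cl Hy.rules B) :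
    HH p V B' - HH p V B ≤ HH p V A' - HH p V A := HH_INC h.hp h.hr A A' B B' hB' hA

theorem Bmn (h : Hy.Base p V eK eL eB eT eP eB2 LM Lam) (A B : Finset VH)
    (hA : A ⊆ cl Hy.rules B) : HH p V A ≤ HH p V B := HH_MN h.hp h.hr A B hA

theorem Bsm (h : Hy.Base p V eK eL eB eT eP eB2 LM Lam) (A B J I : Finset VH)
    (hJ : J ⊆ cl Hy.rules (A ∪ B)) (hI : I ⊆ cl Hy.rules A ∩ cl Hy.rules B) :
    HH p V J + HH p V I ≤ HH p V A + HH p V B := HH_SM h.hp h.hr A B J I hJ hI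

/-- the four free heights are near uniform -/
theorem four (h : Hy.Base p V eK eL eB eT eP eB2 LM Lam) :
    4 * (eB - eL) ≤ HH p V {K, l0, l1, l2, T0, T1, S, R, b, b'}
      - HH p V {K, l0, l1, l2, T0, T1} := by
  have h1 := Bsm h {K, l0, l1, T0} {K, l0, l2, T1} {K, l0, l1, l2, T0, T1} {K, l0}
    (by decide +kernel) (by decide +kernel)
  linarith [h.h010, h.h021, h.hL0, h.tot]

theorem factJ : Hy.FactJ := by
  refine ⟨11, by norm_num, ?_⟩
  intro Ω _ p V eK eL eB eT eP eB2 LM Lam kk h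
  have hb := h.toBase
  have h4 := four hb
  have hκ := h.hκ
  have hk := h.kk0
  -- a single height
  have aS := Binc hb {K, l0} {K, l0, S} {K, l0, l1, l2, T0, T1, b, b', R}
    {K, l0, l1, l2, T0, T1, b, b', R, S} (by decide +kernel) (by decide +kernel)
  have aR := Binc hb {K, l1} {K, l1, R} {K, l0, l1, l2, T0, T1, b, b'}
    {K, l0, l1, l2, T0, T1, b, b', R} (by decide +kernel) (by decide +kernel)
  have ab := Binc hb {K, l2} {K, l2, b} {K, l0, l1, l2, T0, T1}
    {K, l0, l1, l2, T0, T1, b} (by decide +kernel) (by decide +kernel)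
  have ab' := Binc hb {K, l2} {K, l2, b'} {K, l0, l1, l2, T0, T1, b}
    {K, l0, l1, l2, T0, T1, b, b'} (by decide +kernel) (by decide +kernel)
  have aS2 := Binc hb {K, l0} {K, l0, S} {K, l0, l1, l2, T0, T1, b, b'}
    {K, l0, l1, l2, T0, T1, b, b', S} (by decide +kernel) (by decide +kernel)
  have mn1 := Bmn hb {K, l0, l1, l2, T0, T1, S, R, b, b'} {K, l0, l1, l2, T0, T1, b, b', R, S}
    (by decide +kernel)
  have mn2 := Bmn hb {K, l0, l1, l2, T0, T1, b, b', R, S} {K, l0, l1, l2, T0, T1, b, b', S, R}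
    (by decide +kernel)
  have eS : HH p V {K, l0, S} - HH p V {K, l0} = eB - eL := by rw [hb.h0S, hb.hL0]
  have eR : HH p V {K, l1, R} - HH p V {K, l1} = eB - eL := by rw [hb.h1R, hb.hL1]
  have eb : HH p V {K, l2, b} - HH p V {K, l2} = eB - eL := by rw [hb.h2b, hb.hL2]
  have eb' : HH p V {K, l2, b'} - HH p V {K, l2} = eB - eL := by rw [hb.h2b', hb.hL2]
  have hBM := hb.eBM
  rw [eS] at aS aS2
  rw [eR] at aR
  rw [eb] at ab
  rw [eb'] at ab'
  -- increments of the heights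
  have uR : LM - kk ≤ HH p V {K, l0, l1, l2, T0, T1, b, b', S, R}
      - HH p V {K, l0, l1, l2, T0, T1, b, b', S} := by linarith
  have uS : LM - kk ≤ HH p V {K, l0, l1, l2, T0, T1, b, b', S}
      - HH p V {K, l0, l1, l2, T0, T1, b, b'} := by
    have := Binc hb {K, l0, l1, l2, T0, T1, b, b'} {K, l0, l1, l2, T0, T1, b, b', S}
      {K, l0, l1, l2, T0, T1, b, b', R} {K, l0, l1, l2, T0, T1, b, b', R, S}
      (by decide +kernel) (by decide +kernel)
    linarith
  have ub' : LM - kk ≤ HH p V {K, l0, l1, l2, T0, T1, b, b'}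
      - HH p V {K, l0, l1, l2, T0, T1, b} := by linarith
  have ub : LM - kk ≤ HH p V {K, l0, l1, l2, T0, T1, b}
      - HH p V {K, l0, l1, l2, T0, T1} := by linarith
  -- J3
  have c1 := Binc hb {tw, S, T0, T1} {tw, S, T0, T1, R} {K, l0, l1, l2, T0, T1, b, b', S, tw}
    {K, l0, l1, l2, T0, T1, b, b', S, tw, R} (by decide +kernel) (by decide +kernel)
  have mn3 := Bmn hb {K, l0, l1, l2, T0, T1, b, b', S, R}
    {K, l0, l1, l2, T0, T1, b, b', S, tw, R} (by decide +kernel)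
  have J3 : LM - 2 * kk ≤ HH p V {K, l0, l1, l2, T0, T1, b, b', S, tw}
      - HH p V {K, l0, l1, l2, T0, T1, b, b', S} := by linarith [h.c1]
  -- J4
  have cU := Binc hb {b', b, T1, tz} {b', b, T1, tz, tw} {K, l0, l1, l2, T0, T1, b, b', S, tz}
    {K, l0, l1, l2, T0, T1, b, b', S, tz, tw} (by decide +kernel) (by decide +kernel)
  have mn4 := Bmn hb {K, l0, l1, l2, T0, T1, b, b', S, tw}
    {K, l0, l1, l2, T0, T1, b, b', S, tz, tw} (by decide +kernel)
  have J4 : LM - 3 * kk ≤ HH p V {K, l0, l1, l2, T0, T1, b, b', S, tz}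
      - HH p V {K, l0, l1, l2, T0, T1, b, b', S} := by linarith [h.cU]
  -- J1
  have x1 := Binc hb {K, l0, l1, T0, T1, S} {K, l0, l1, T0, T1, S, tw}
    {K, l0, l1, l2, T0, T1, b, b', S} {K, l0, l1, l2, T0, T1, b, b', S, tw}
    (by decide +kernel) (by decide +kernel)
  have x2 := Binc hb {K, l0, l1, T0, T1} {K, l0, l1, T0, T1, S}
    {K, l0, l1, l2, T0, T1, b, b'} {K, l0, l1, l2, T0, T1, b, b', S}
    (by decide +kernel) (by decide +kernel)
  have x3 := Binc hb {K} {K, tw} {K, l0, l1, T0, T1} {K, l0, l1, T0, T1, tw}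
    (by decide +kernel) (by decide +kernel)
  have x4 := Bmn hb {K, l0, l1, T0, T1, S, tw} {K, l0, l1, T0, T1, tw, S} (by decide +kernel)
  have J1 : LM - 4 * kk ≤ HH p V {K, l0, l1, T0, T1, tw, S} - HH p V {K, l0, l1, T0, T1, tw} := by
    linarith [h.c2]
  -- J2
  have y1 := Binc hb {K, l0, l1, T0, T1, S} {K, l0, l1, T0, T1, S, R}
    {K, l0, l1, l2, T0, T1, b, b', S} {K, l0, l1, l2, T0, T1, b, b', S, R}
    (by decide +kernel) (by decide +kernel)
  have y2 := Binc hb {K, l0, T1} {K, l0, T1, l2} {K, l0, l1, T0, T1, S}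
    {K, l0, l1, T0, T1, S, l2} (by decide +kernel) (by decide +kernel)
  have y2' := Bmn hb {K, l0, T1, l2} {K, l0, l2, T1} (by decide +kernel)
  have y3 := Binc hb {K, l1} {K, l1, R} {K, l0, l1, T0, T1, S, l2}
    {K, l0, l1, T0, T1, S, l2, R} (by decide +kernel) (by decide +kernel)
  have y4 := Binc hb {K, l2} {K, l2, b} {K, l0, l1, T0, T1, S, l2, R}
    {K, l0, l1, T0, T1, S, l2, R, b} (by decide +kernel) (by decide +kernel)
  have y5 := Binc hb {K, l2} {K, l2, b'} {K, l0, l1, T0, T1, S, l2, R, b}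
    {K, l0, l1, l2, T0, T1, S, R, b, b'} (by decide +kernel) (by decide +kernel)
  have y6 := Binc hb {K, l0} {K, l0, S} {K, l0, l1, T0} {K, l0, l1, T0, S}
    (by decide +kernel) (by decide +kernel)
  rw [eR] at y3
  rw [eb] at y4
  rw [eb'] at y5
  rw [eS] at y6
  have uT1 : LM - kk ≤ HH p V {K, l0, l1, T0, T1, S} - HH p V {K, l0, l1, T0, S} := by
    linarith [hb.h010, hb.h021, hb.h01, hb.tot]
  have y7 := Binc hb {tw, S, T0, R} {tw, S, T0, R, T1} {K, l0, l1, T0, S, tw, R}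
    {K, l0, l1, T0, T1, S, R} (by decide +kernel) (by decide +kernel)
  have y8 := Binc hb {K} {K, tw} {K, l0, l1, T0, S} {K, l0, l1, T0, S, tw}
    (by decide +kernel) (by decide +kernel)
  have J2 : LM - 4 * kk ≤ HH p V {K, l0, l1, T0, S, tw, R} - HH p V {K, l0, l1, T0, S, tw} := by
    linarith [h.c2, h.c9]
  -- J5
  have z1 := Binc hb {K, l0, l1, l2, T0, T1, b, b'} {K, l0, l1, l2, T0, T1, b, tz, b'}
    {K, l0, l1, l2, T0, T1, b, b', S} {K, l0, l1, l2, T0, T1, b, b', S, tz}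
    (by decide +kernel) (by decide +kernel)
  have z2 := Binc hb {K} {K, tz} {K, l0, l1, l2, T0, T1, b} {K, l0, l1, l2, T0, T1, b, tz}
    (by decide +kernel) (by decide +kernel)
  have J5 : LM - 5 * kk ≤ HH p V {K, l0, l1, l2, T0, T1, b, tz, b'}
      - HH p V {K, l0, l1, l2, T0, T1, b, tz} := by linarith [h.cz]
  -- J6
  have z3 := Binc hb {K, l0, l1, l2, T0, T1, b} {K, l0, l1, l2, T0, T1, tz, b}
    {K, l0, l1, l2, T0, T1, b, b', S} {K, l0, l1, l2, T0, T1, b, b', S, tz}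
    (by decide +kernel) (by decide +kernel)
  have z4 := Binc hb {K} {K, tz} {K, l0, l1, l2, T0, T1} {K, l0, l1, l2, T0, T1, tz}
    (by decide +kernel) (by decide +kernel)
  have J6 : LM - 5 * kk ≤ HH p V {K, l0, l1, l2, T0, T1, tz, b}
      - HH p V {K, l0, l1, l2, T0, T1, tz} := by linarith [h.cz]
  -- J7
  have z5 := Binc hb {K, l0, T1} {K, l0, tz, T1}
    {K, l0, l1, l2, T0, T1, b, b', S} {K, l0, l1, l2, T0, T1, b, b', S, tz}
    (by decide +kernel) (by decide +kernel)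
  have z6 := Binc hb {K} {K, tz} {K, l0} {K, l0, tz}
    (by decide +kernel) (by decide +kernel)
  have J7 : LM - 5 * kk ≤ HH p V {K, l0, tz, T1} - HH p V {K, l0, tz} := by
    linarith [h.cz, hb.h01, hb.hL0]
  refine ⟨?_, ?_, ?_, ?_, ?_, ?_, ?_⟩ <;> linarith

theorem factJQ : Hy.FactJQ := by
  obtain ⟨N, hN, H⟩ := factJ
  refine ⟨N + 2, by linarith, ?_⟩
  intro Ω _ p V eK eL eB eT eP eB2 LM Lam kk h
  have hb := h.toBase
  obtain ⟨_, _, _, _, J5, J6, J7⟩ := H p V eK eL eB eT eP eB2 LM Lam kk h.toPar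
  have hk := h.kk0
  have q1 := h.q1
  have q2 := h.q2
  have u1 := h.u1
  refine ⟨?_, ?_, ?_⟩
  · have a1 := Binc hb {K} {K, kq} {K, l0, l1, l2, T0, T1, b, tz}
      {K, l0, l1, l2, T0, T1, b, tz, kq} (by decide +kernel) (by decide +kernel)
    have a2 := Binc hb {l0, kq} {l0, kq, Q} {K, l0, l1, l2, T0, T1, b, tz, kq}
      {K, l0, l1, l2, T0, T1, b, tz, kq, Q} (by decide +kernel) (by decide +kernel)
    have a3 := Bmn hb {K, l0, l1, l2, T0, T1, b, tz, b'}
      {K, l0, l1, l2, T0, T1, b, tz, kq, Q, b'} (by decide +kernel)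
    linarith
  · have a1 := Binc hb {K} {K, kq} {K, l0, l1, l2, T0, T1, tz}
      {K, l0, l1, l2, T0, T1, tz, kq} (by decide +kernel) (by decide +kernel)
    have a2 := Binc hb {K} {K, kz} {K, l0, l1, l2, T0, T1, tz, kq}
      {K, l0, l1, l2, T0, T1, tz, kq, kz} (by decide +kernel) (by decide +kernel)
    have a3 := Bmn hb {K, l0, l1, l2, T0, T1, tz, b}
      {K, l0, l1, l2, T0, T1, tz, kq, kz, b} (by decide +kernel)
    linarith
  · have a1 := Binc hb {K} {K, kq} {K, l0, tz} {K, l0, tz, kq}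
      (by decide +kernel) (by decide +kernel)
    have a2 := Binc hb {K} {K, kz} {K, l0, tz, kq} {K, l0, tz, kq, kz}
      (by decide +kernel) (by decide +kernel)
    have a3 := Bmn hb {K, l0, tz, T1} {K, l0, tz, kq, kz, T1} (by decide +kernel)
    linarith

end

end Pool.Agent.Helper75.KakHB
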