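import Pool.Agent.Helper75.KakHE
import Pool.Agent.Helper53.KakG.GF
import Pool.Agent.Helper68.Kak.Plane

/-!
# Assembly of the hybrid argument
-/

open MeasureTheory
open scoped ENNReal NNReal

set_option autoImplicit false

namespace Pool.Agent.Helper75.KakHB

open Pool.Agent.Helper8.Kak Pool.Agent.Helper6.Kak

/-- the entropic inequality for all systems -/
theorem sysG_of {m : ℕ} (hm : 1 ≤ m) (h : RIH m 1.6752 0.345) :
    Pool.Agent.Helper53.KakG.SysG m (m - (m + 0.345) / 1.6752) := by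
  have hm' : (1 : ℝ) ≤ m := by exact_mod_cast hm
  obtain ⟨C, hC, H⟩ := final (m := m) (β := 1.6752) (c := 0.345) (by norm_num)
    (by norm_num; linarith) h
  exact ⟨C, hC, H⟩

/-- **Kakeya sets**, from the step and the random scale transfer. -/
theorem dimH_kakeya_of {n : ℕ} (hn : 2 ≤ n) (hS : Step (n - 1))
    (hR : SDp (n - 1) 1.6752 0.345 → RIH (n - 1) 1.6752 0.345)
    (K : Set (EuclideanSpace ℝ (Fin n)))
    (hK : ∀ ω : EuclideanSpace ℝ (Fin n), ‖ω‖ = 1 →
      ∃ x : EuclideanSpace ℝ (Fin n), 1 ≤ dimH {t : ℝ | x + t • ω ∈ K}) :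
    ENNReal.ofReal (1 + (n - 1 + 0.345) / 1.6752) ≤ dimH K := by
  have h1 := sysG_of (m := n - 1) (by omega) (hR (iter hS (base _ (Pool.Agent.Helper68.Kak.planeLem _))))
  have h2 := Pool.Agent.Helper53.KakG.dimH_kakeya_of_SysG hn h1 K hK
  have h3 : ((n - 1 : ℕ) : ℝ) = n - 1 := by
    rw [Nat.cast_sub (by omega), Nat.cast_one]
  have h4 : (n : ℝ) - (((n - 1 : ℕ) : ℝ) - (((n - 1 : ℕ) : ℝ) + 0.345) / 1.6752)
      = 1 + (n - 1 + 0.345) / 1.6752 := by
    rw [h3]; ring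
  rw [h4] at h2
  exact h2

end Pool.Agent.Helper75.KakHB
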