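import Pool.Agent.Helper75.KakHB

/-!
# The iteration of the hybrid step
-/

set_option autoImplicit false

namespace Pool.Agent.Helper75.KakHB

open Pool.Agent.Helper8.Kak Pool.Agent.Helper6.Kak

/-- the step of the hybrid induction -/
def Step (m : ℕ) : Prop :=
  ∀ β c : ℝ, 1 < β → β ≤ 2 → 0 ≤ c → c ≤ (β - 1) / 2 → SDp m β c →
    SDp m ((3 * β ^ 2 + 2 * β - 2) / (β ^ 2 + 3 * β - 2))
      ((3 * β - 1 - β ^ 2 + (2 * β - 1) * c) / (β ^ 2 + 3 * β - 2))

theorem gap_ge {δ : ℝ} (hδ : 0 < δ) {k : ℕ} (h : k ≤ JJ δ) (hδ1 : δ ≤ 1) :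
    - Real.log 2 ≤ gap δ k := by
  unfold gap
  have h1 : (k : ℝ) ≤ JJ δ := by exact_mod_cast h
  have h0 : 0 ≤ Real.logb 2 (1 / δ) := by
    apply Real.logb_nonneg (by norm_num)
    rw [le_div_iff₀ hδ]
    linarith
  have h2 : (JJ δ : ℝ) < Real.logb 2 (1 / δ) + 1 := Nat.ceil_lt_add_one h0
  have h3 : 0 < Real.log 2 := Real.log_pos (by norm_num)
  have h4 : Real.logb 2 (1 / δ) * Real.log 2 = Real.log (1 / δ) := by
    unfold Real.logb
    field_simp
  nlinarith

theorem A_ge {m M : ℕ} {G : Geo m M} (S : PSys G) : - Real.log 2 ≤ S.A := by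
  unfold PSys.A Ex
  have h : ∀ ω, S.p ω * (- Real.log 2) ≤ S.p ω * gap G.δ (S.k ω) := by
    intro ω
    rcases (S.hp.1 ω).eq_or_lt with h0 | h0
    · rw [← h0]; simp
    · exact mul_le_mul_of_nonneg_left (gap_ge G.hδ (S.kJ ω h0) G.hδ1) h0.le
  have h1 := Finset.sum_le_sum fun ω (_ : ω ∈ Finset.univ) => h ω
  rw [← Finset.sum_mul, S.hp.2] at h1
  linarith

theorem M_pos {m M : ℕ} (G : Geo m M) : 1 ≤ M := by
  have h1 := G.hM
  have h2 := G.hδ
  have h3 : (0 : ℝ) < M := by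
    by_contra h
    push Not at h
    nlinarith
  exact_mod_cast h3

theorem h_nonneg {m M : ℕ} {G : Geo m M} (S : Sys G) : 0 ≤ S.h := by
  unfold Sys.h Sys.eP Sys.eT
  have := Ent_mono S.hp (r := S.K ⊓ Setoid.ker S.T ⊓ Setoid.ker (fun ω => G.P (S.l ω) (S.T ω)))
    (s := S.K ⊓ Setoid.ker S.T) inf_le_left
  linarith

/-- weakening -/
theorem SDp_mono {m : ℕ} {β c β' c' : ℝ} (hβ : β ≤ β') (hc : c' ≤ c) (h : SDp m β c) :
    SDp m β' c' := by
  obtain ⟨C, hC, H⟩ := h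
  refine ⟨C + (c - c'), by linarith, fun M G S => ?_⟩
  have h1 := H M G S
  have h2 := mul_le_mul_of_nonneg_right hβ (h_nonneg S.toSys)
  have h3 := A_ge S
  have h4 := one_le_ell (M_pos G)
  have l2 : Real.log 2 ≤ 1 := by
    have := Real.log_two_lt_d9
    linarith
  have hκ : 0 ≤ S.κ := S.toSys.κ_nonneg
  have hι := ι_nonneg S
  have h5 : (c - c') * (- S.A) ≤ (c - c') * (S.κ + S.ι + ell M) :=
    mul_le_mul_of_nonneg_left (by linarith) (by linarith)
  nlinarith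

theorem step' {m : ℕ} (hs : Step m) {β c β' c' : ℝ} (h1 : 1 < β) (h2 : β ≤ 2) (h3 : 0 ≤ c)
    (h4 : c ≤ (β - 1) / 2) (h : SDp m β c)
    (h5 : (3 * β ^ 2 + 2 * β - 2) / (β ^ 2 + 3 * β - 2) ≤ β')
    (h6 : c' ≤ (3 * β - 1 - β ^ 2 + (2 * β - 1) * c) / (β ^ 2 + 3 * β - 2)) : SDp m β' c' :=
  SDp_mono h5 h6 (hs β c h1 h2 h3 h4 h)

/-- the result of the iteration -/
theorem iter {m : ℕ} (hs : Step m) (h0 : SDp m 2 1) : SDp m 1.6752 0.345 := by
  have s0 : SDp m 2 0.5 := SDp_mono le_rfl (by norm_num) h0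
  have s1 : SDp m 1.75 0.3125 := step' hs (by norm_num) (by norm_num) (by norm_num) (by norm_num) s0
    (by norm_num) (by norm_num)
  have s2 : SDp m 1.69307 0.31188 := step' hs (by norm_num) (by norm_num) (by norm_num)
    (by norm_num) s1 (by norm_num) (by norm_num)
  have s3 : SDp m 1.67947 0.32913 := step' hs (by norm_num) (by norm_num) (by norm_num)
    (by norm_num) s2 (by norm_num) (by norm_num)
  have s4 : SDp m 1.67619 0.33809 := step' hs (by norm_num) (by norm_num) (by norm_num)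
    (by norm_num) s3 (by norm_num) (by norm_num)
  have s5 : SDp m 1.67539 0.33769 := step' hs (by norm_num) (by norm_num) (by norm_num)
    (by norm_num) s4 (by norm_num) (by norm_num)
  exact step' hs (by norm_num) (by norm_num) (by norm_num)
    (by norm_num) s5 (by norm_num) (by norm_num)

end Pool.Agent.Helper75.KakHB
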