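import Pool.Agent.Helper8.Kak.Poly

/-!
# Final step (bookkeeping)

`K` is the base partition, `Q` the partition of the second system (it refines `K` and the base
height `b`), `m1`, `m3` lines of the second system, `U0 U1 U2` three heights of the second system,
`c3`, `u` as in the X-step over the second system with `bh = b`, `s = P(m3, b)`; `l5` is a new base
line through the point `s` at height `b`, `t5` a new height on `l5`, `P5 = P(l5, t5)`,
`c4 = mvInf c3 t5 b`, `y = v(l5) + (c4 / M) v(m1)`.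
-/

set_option autoImplicit false

namespace Pool.Agent.Helper8.Kak

inductive V3 | K | Q | b | m1 | m3 | U0 | U1 | U2 | c3 | u | s | l5 | t5 | P5 | c4 | y
deriving DecidableEq

namespace F3

open V3

/-- functional dependencies -/
def rules : List (V3 × List (Finset V3)) :=
  [(K, [{Q}]), (b, [{Q}]), (s, [{Q, m3}, {b, l5}]), (P5, [{l5, t5}]), (u, [{Q, m3, m1, c3}]),
   (c4, [{c3, t5, b}]), (y, [{l5, m1, c4}])]

/-- hypotheses on the entropies; `a = eL - eK`, `h = eP - eT`, `e = qL - qK` -/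
structure Hyp {Ω : Type} [Fintype Ω] (p : Ω → ℝ) (V : V3 → Setoid Ω)
    (eK eL eB eT eP lM qK qL lam sig : ℝ) (kX kG kf1 kf2 kf3 kf4 kf5 : ℝ) : Prop where
  hp : IsProb p
  hr : Valid p V rules
  hK : HH p V {K} = eK
  hL5 : HH p V {K, l5} = eL
  h5b : HH p V {K, l5, b} = eB
  h55 : HH p V {K, l5, t5} = eB
  hTb : HH p V {K, b} = eT
  hT5 : HH p V {K, t5} = eT
  hPs : HH p V {K, b, s} = eP
  hP5 : HH p V {K, t5, P5} = eP
  hQ : HH p V {Q} = qK
  hQ1 : HH p V {Q, m1} = qL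
  hQ3 : HH p V {Q, m3} = qL
  hU : HH p V {Q, U0, U1, U2} ≤ qK + 3 * lM
  hU1 : HH p V {Q, m1, U0, U1, U2} ≤ qL + 3 * lM
  /-- output of the X-step over the second system -/
  hX0 : qK + 3 * lM + 2 * (qL - qK) - lam - kX ≤ HH p V {Q, U0, U1, U2, m1, m3}
  hG3 : lM - kG ≤ HH p V {Q, U0, U1, U2, m1, m3, c3} - HH p V {Q, U0, U1, U2, m1, m3}
  /-- entropy of the point `s` given `Q` -/
  hs : qK + sig ≤ HH p V {Q, s}
  tot : HH p V {Q, U0, U1, U2, m1, m3, c3} + 2 * eB - eL - eP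
    ≤ HH p V {Q, U0, U1, U2, m1, m3, c3, l5, t5}
  eTM : eT - eK ≤ lM
  /-- costs -/
  f1 : HH p V {c4, t5, b, c3} - HH p V {c4, t5, b} ≤ kf1
  f2 : HH p V {K, c4} - HH p V {K} ≤ lM + kf2
  f3 : HH p V {y, l5, c4, m1} - HH p V {y, l5, c4} ≤ kf3
  f4 : HH p V {y, m1, c4, l5} - HH p V {y, m1, c4} ≤ kf4
  f5 : HH p V {P5, u, c3, t5, b, c4, y} - HH p V {P5, u, c3, t5, b, c4} ≤ kf5

variable {Ω : Type} [Fintype Ω] {p : Ω → ℝ} {V : V3 → Setoid Ω}
  {eK eL eB eT eP lM qK qL lam sig : ℝ} {kX kG kf1 kf2 kf3 kf4 kf5 : ℝ}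

theorem Hyp.inc (h : Hyp p V eK eL eB eT eP lM qK qL lam sig kX kG kf1 kf2 kf3 kf4 kf5)
    (A A' B B' : Finset V3) (hB' : B' ⊆ cl rules (A' ∪ B))
    (hA : A ⊆ cl rules A' ∩ cl rules B) : HH p V B' - HH p V B ≤ HH p V A' - HH p V A :=
  HH_INC h.hp h.hr A A' B B' hB' hA

theorem Hyp.mn (h : Hyp p V eK eL eB eT eP lM qK qL lam sig kX kG kf1 kf2 kf3 kf4 kf5)
    (A B : Finset V3) (hA : A ⊆ cl rules B) : HH p V A ≤ HH p V B :=
  HH_MN h.hp h.hr A B hA

/-- the height `t5` is almost uniform given `l5` and everything else (used for `E log 1/|t5 - b|`) -/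
theorem Hyp.ht5 (h : Hyp p V eK eL eB eT eP lM qK qL lam sig kX kG kf1 kf2 kf3 kf4 kf5) :
    eB - eL ≤ HH p V {Q, U0, U1, U2, m1, m3, c3, l5, t5}
      - HH p V {Q, U0, U1, U2, m1, m3, c3, l5} := by
  have i1 := h.inc {K, b, s} {K, l5, b} {Q, U0, U1, U2, m1, m3, c3}
    {Q, U0, U1, U2, m1, m3, c3, l5} (by decide +kernel) (by decide +kernel)
  linarith [h.tot, h.hPs, h.h5b]

/-- the defect `lM - (eB - eL)` is nonnegative -/
theorem Hyp.kap (h : Hyp p V eK eL eB eT eP lM qK qL lam sig kX kG kf1 kf2 kf3 kf4 kf5) :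
    0 ≤ lM - (eB - eL) := by
  have i1 := h.inc {K} {K, t5} {K, l5} {K, l5, t5} (by decide +kernel) (by decide +kernel)
  linarith [h.hK, h.hT5, h.hL5, h.h55, h.eTM]

/-- entropy of the line `l5` given the point `s` and the second system -/
theorem Hyp.N1 (h : Hyp p V eK eL eB eT eP lM qK qL lam sig kX kG kf1 kf2 kf3 kf4 kf5) :
    eB - eP ≤ HH p V {Q, U0, U1, U2, m1, m3, c3, l5} - HH p V {Q, U0, U1, U2, m1, m3, c3} := by
  have i1 := h.inc {K, l5} {K, l5, t5} {Q, U0, U1, U2, m1, m3, c3, l5}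
    {Q, U0, U1, U2, m1, m3, c3, l5, t5} (by decide +kernel) (by decide +kernel)
  linarith [h.tot, h.hL5, h.h55]

/-- (1): entropy of the point `s` given the line `m1` -/
theorem Hyp.N2 (h : Hyp p V eK eL eB eT eP lM qK qL lam sig kX kG kf1 kf2 kf3 kf4 kf5) :
    3 * lM + qL + sig - lam - kX ≤ HH p V {Q, U0, U1, U2, m1, s} := by
  have i1 := h.inc {Q, s} {Q, m3} {Q, U0, U1, U2, m1, s} {Q, U0, U1, U2, m1, m3}
    (by decide +kernel) (by decide +kernel)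
  linarith [h.hX0, h.hs, h.hQ3]

/-- (2): the lines `m1`, `l5` -/
theorem Hyp.N3 (h : Hyp p V eK eL eB eT eP lM qK qL lam sig kX kG kf1 kf2 kf3 kf4 kf5) :
    3 * lM + qL + ((eL - eK) - (eP - eT) + sig - lam) - kX - (lM - (eB - eL))
      ≤ HH p V {Q, U0, U1, U2, m1, l5} := by
  have i1 := h.inc {Q, U0, U1, U2, m1, s} {Q, U0, U1, U2, m1, l5}
    {Q, U0, U1, U2, m1, m3, c3} {Q, U0, U1, U2, m1, m3, c3, l5}
    (by decide +kernel) (by decide +kernel)
  linarith [h.N1, h.N2, h.eTM]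

/-- upper bound for the second system with the line `l5` -/
theorem Hyp.B1 (h : Hyp p V eK eL eB eT eP lM qK qL lam sig kX kG kf1 kf2 kf3 kf4 kf5) :
    HH p V {Q, U0, U1, U2, m1, m3, l5} ≤ HH p V {Q, U0, U1, U2, m1, m3} + (eB - eP) := by
  have i1 := h.inc {K, b, s} {K, l5, b} {Q, U0, U1, U2, m1, m3}
    {Q, U0, U1, U2, m1, m3, l5} (by decide +kernel) (by decide +kernel)
  linarith [h.hPs, h.h5b]

/-- lower bound for everything, with the parameter `c4` instead of `c3` -/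
theorem Hyp.N4 (h : Hyp p V eK eL eB eT eP lM qK qL lam sig kX kG kf1 kf2 kf3 kf4 kf5) :
    HH p V {Q, U0, U1, U2, m1, m3} + lM - kG + 2 * eB - eL - eP - kf1
      ≤ HH p V {Q, U0, U1, U2, m1, m3, c4, l5, t5} := by
  have i1 := h.inc {c4, t5, b} {c4, t5, b, c3} {Q, U0, U1, U2, m1, m3, c4, l5, t5}
    {Q, U0, U1, U2, m1, m3, c3, l5, t5} (by decide +kernel) (by decide +kernel)
  linarith [h.tot, h.hG3, h.f1]

/-- the parameter `c4` is almost uniform given all lines -/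
theorem Hyp.G4 (h : Hyp p V eK eL eB eT eP lM qK qL lam sig kX kG kf1 kf2 kf3 kf4 kf5) :
    lM - kG - kf1 ≤ HH p V {Q, U0, U1, U2, m1, m3, l5, c4} - HH p V {Q, U0, U1, U2, m1, m3, l5} := by
  have i1 := h.inc {K, l5} {K, l5, t5} {Q, U0, U1, U2, m1, m3, l5, c4}
    {Q, U0, U1, U2, m1, m3, c4, l5, t5} (by decide +kernel) (by decide +kernel)
  linarith [h.N4, h.B1, h.hL5, h.h55]

/-- the lines `m1`, `l5` and the parameter `c4` -/
theorem Hyp.N5 (h : Hyp p V eK eL eB eT eP lM qK qL lam sig kX kG kf1 kf2 kf3 kf4 kf5) :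
    4 * lM + qL + ((eL - eK) - (eP - eT) + sig - lam)
      - (lM - (eB - eL)) - kX - kG - kf1 ≤ HH p V {Q, U0, U1, U2, c4, m1, l5} := by
  have i1 := h.inc {Q, U0, U1, U2, m1, l5} {Q, U0, U1, U2, c4, m1, l5}
    {Q, U0, U1, U2, m1, m3, l5} {Q, U0, U1, U2, m1, m3, l5, c4}
    (by decide +kernel) (by decide +kernel)
  linarith [h.G4, h.N3]

/-- the base of the induction hypothesis -/
theorem Hyp.B2 (h : Hyp p V eK eL eB eT eP lM qK qL lam sig kX kG kf1 kf2 kf3 kf4 kf5) :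
    HH p V {Q, U0, U1, U2, c4} ≤ qK + 4 * lM + kf2 := by
  have i1 := h.inc {K} {K, c4} {Q, U0, U1, U2} {Q, U0, U1, U2, c4}
    (by decide +kernel) (by decide +kernel)
  linarith [h.hU, h.f2]

theorem Hyp.B3 (h : Hyp p V eK eL eB eT eP lM qK qL lam sig kX kG kf1 kf2 kf3 kf4 kf5) :
    HH p V {Q, U0, U1, U2, c4, m1} ≤ qL + 4 * lM + kf2 := by
  have i1 := h.inc {K} {K, c4} {Q, m1, U0, U1, U2} {Q, U0, U1, U2, c4, m1}
    (by decide +kernel) (by decide +kernel)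
  linarith [h.hU1, h.f2]

/-- (4): entropy of the slice `y` -/
theorem Hyp.Ylow (h : Hyp p V eK eL eB eT eP lM qK qL lam sig kX kG kf1 kf2 kf3 kf4 kf5) :
    ((eL - eK) - (eP - eT) + sig - lam)
      - (lM - (eB - eL)) - kX - kG - kf1 - kf2 - kf4
      ≤ HH p V {Q, U0, U1, U2, c4, y} - HH p V {Q, U0, U1, U2, c4} := by
  have i1 := h.inc {Q, U0, U1, U2, c4} {Q, U0, U1, U2, c4, y} {Q, U0, U1, U2, c4, m1}
    {Q, U0, U1, U2, c4, m1, y} (by decide +kernel) (by decide +kernel)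
  have i2 := h.inc {y, m1, c4} {y, m1, c4, l5} {Q, U0, U1, U2, c4, m1, y}
    {Q, U0, U1, U2, c4, m1, l5} (by decide +kernel) (by decide +kernel)
  linarith [h.N5, h.B3, h.f4]

/-- the height `t5` given the line `l5` and the slice `y` -/
theorem Hyp.kt (h : Hyp p V eK eL eB eT eP lM qK qL lam sig kX kG kf1 kf2 kf3 kf4 kf5) :
    lM - (HH p V {Q, U0, U1, U2, c4, y, l5, t5} - HH p V {Q, U0, U1, U2, c4, y, l5})
      ≤ (lM - (eB - eL)) + kG + kf1 + kf2 := by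
  have i1 := h.inc {Q, U0, U1, U2, c4, y, l5} {Q, U0, U1, U2, c4, y, l5, t5}
    {Q, U0, U1, U2, m1, m3, l5, c4} {Q, U0, U1, U2, m1, m3, c4, l5, t5}
    (by decide +kernel) (by decide +kernel)
  have i2 := h.inc {K} {K, c4} {Q, U0, U1, U2, m1, m3, l5} {Q, U0, U1, U2, m1, m3, l5, c4}
    (by decide +kernel) (by decide +kernel)
  linarith [h.N4, h.B1, h.f2]

/-- (3): right side of the induction hypothesis -/
theorem Hyp.rhs (h : Hyp p V eK eL eB eT eP lM qK qL lam sig kX kG kf1 kf2 kf3 kf4 kf5) :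
    HH p V {Q, U0, U1, U2, c4, y, t5, P5} - HH p V {Q, U0, U1, U2, c4, y, t5} ≤
      (eP - eT) + (HH p V {Q, U0, U1, U2, c3, u} - HH p V {Q, U0, U1, U2, c3})
        - (HH p V {Q, U0, U1, U2, c4, y} - HH p V {Q, U0, U1, U2, c4})
        + ((lM - (eB - eL)) + kG + 2 * kf1 + kf2 + kf5) := by
  have hkt := h.kt
  -- lower bound for the base
  have i1 := h.inc {Q, U0, U1, U2, c4, y} {Q, U0, U1, U2, c4, y, t5}
    {Q, U0, U1, U2, c4, y, l5} {Q, U0, U1, U2, c4, y, l5, t5}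
    (by decide +kernel) (by decide +kernel)
  have i2 := h.inc {K} {K, t5} {Q, U0, U1, U2, c4} {Q, U0, U1, U2, c4, t5}
    (by decide +kernel) (by decide +kernel)
  -- upper bound for the point
  have j1 := h.mn {Q, U0, U1, U2, c4, y, t5, P5} {Q, U0, U1, U2, c3, u, t5, P5, c4, y}
    (by decide +kernel)
  have j2 := h.inc {P5, u, c3, t5, b, c4} {P5, u, c3, t5, b, c4, y}
    {Q, U0, U1, U2, c3, u, t5, P5} {Q, U0, U1, U2, c3, u, t5, P5, c4, y}
    (by decide +kernel) (by decide +kernel)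
  have j3 := h.inc {K, t5} {K, t5, P5} {Q, U0, U1, U2, c3, t5, u}
    {Q, U0, U1, U2, c3, u, t5, P5} (by decide +kernel) (by decide +kernel)
  have j4 := h.inc {Q, U0, U1, U2, c3} {Q, U0, U1, U2, c3, u} {Q, U0, U1, U2, c3, t5}
    {Q, U0, U1, U2, c3, t5, u} (by decide +kernel) (by decide +kernel)
  have j5 := h.inc {c4, t5, b} {c4, t5, b, c3} {Q, U0, U1, U2, c4, t5}
    {Q, U0, U1, U2, c3, t5} (by decide +kernel) (by decide +kernel)
  linarith [h.hK, h.hT5, h.hP5, h.eTM, h.f1, h.f5]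

/-- the final inequality with exact errors; `X = H(u | Q, U, c3)` -/
theorem Hyp.factF' (h : Hyp p V eK eL eB eT eP lM qK qL lam sig kX kG kf1 kf2 kf3 kf4 kf5)
    {β C : ℝ} (hβ : 1 ≤ β) (hC : 0 ≤ C)
    (ih : HH p V {Q, U0, U1, U2, c4, y, l5} - HH p V {Q, U0, U1, U2, c4, y} ≤
      β * (HH p V {Q, U0, U1, U2, c4, y, t5, P5} - HH p V {Q, U0, U1, U2, c4, y, t5})
      + C * (lM - (HH p V {Q, U0, U1, U2, c4, y, l5, t5} - HH p V {Q, U0, U1, U2, c4, y, l5}) + 1)) :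
    (qL - qK) + β * ((eL - eK) - (eP - eT) + sig - lam)
      ≤ β * ((eP - eT) + (HH p V {Q, U0, U1, U2, c3, u} - HH p V {Q, U0, U1, U2, c3}))
        + β * (2 * (lM - (eB - eL)) + kX + 2 * kG + 3 * kf1 + 2 * kf2 + kf4 + kf5)
        + C * ((lM - (eB - eL)) + kG + kf1 + kf2 + 1) + kf3 - kf4 := by
  have hkt := h.kt
  have hrhs := h.rhs
  have hY := h.Ylow
  -- left side
  have i1 := h.inc {y, l5, c4} {y, l5, c4, m1} {Q, U0, U1, U2, c4, y, l5}
    {Q, U0, U1, U2, c4, m1, l5} (by decide +kernel) (by decide +kernel)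
  have e1 := mul_le_mul_of_nonneg_left hrhs (by linarith : (0 : ℝ) ≤ β)
  have e2 := mul_le_mul_of_nonneg_left hkt hC
  have e3 := mul_le_mul_of_nonneg_left hY (by linarith : (0 : ℝ) ≤ β - 1)
  nlinarith [h.N5, h.B2, h.f3, e1, e2, e3, i1, ih]

/-- MAIN: the final inequality; `X = H(u | Q, U, c3)`. With `a = eL - eK`, `h = eP - eT`,
`e = qL - qK`, `D = (a - h) + sig - lam` (lower bound for `H(l5 | Q, U, m1)`):
`e + D + (β - 1) D ≤ β (h + X) + errors` -/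
theorem Hyp.factF (h : Hyp p V eK eL eB eT eP lM qK qL lam sig kX kG kf1 kf2 kf3 kf4 kf5)
    (hkX : 0 ≤ kX) (hkG : 0 ≤ kG) (hkf2 : 0 ≤ kf2)
    {β C : ℝ} (hβ : 1 ≤ β) (hC : 0 ≤ C)
    (ih : HH p V {Q, U0, U1, U2, c4, y, l5} - HH p V {Q, U0, U1, U2, c4, y} ≤
      β * (HH p V {Q, U0, U1, U2, c4, y, t5, P5} - HH p V {Q, U0, U1, U2, c4, y, t5})
      + C * (lM - (HH p V {Q, U0, U1, U2, c4, y, l5, t5} - HH p V {Q, U0, U1, U2, c4, y, l5}) + 1)) :
    (qL - qK) + β * ((eL - eK) - (eP - eT) + sig - lam)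
      ≤ β * ((eP - eT) + (HH p V {Q, U0, U1, U2, c3, u} - HH p V {Q, U0, U1, U2, c3}))
        + (β + C + 1) * (3 * (lM - (eB - eL)) + 3 * (kX + kG + kf1 + kf2 + kf3 + kf4 + kf5)) + C := by
  have hF := h.factF' hβ hC ih
  have hk := h.kap
  have h1 : 0 ≤ kf1 := by
    have i := h.mn {c4, t5, b} {c4, t5, b, c3} (by decide +kernel)
    linarith [h.f1]
  have h3 : 0 ≤ kf3 := by
    have i := h.mn {y, l5, c4} {y, l5, c4, m1} (by decide +kernel)
    linarith [h.f3]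
  have h4 : 0 ≤ kf4 := by
    have i := h.mn {y, m1, c4} {y, m1, c4, l5} (by decide +kernel)
    linarith [h.f4]
  have h5 : 0 ≤ kf5 := by
    have i := h.mn {P5, u, c3, t5, b, c4} {P5, u, c3, t5, b, c4, y} (by decide +kernel)
    linarith [h.f5]
  have e1 : β * (2 * (lM - (eB - eL)) + kX + 2 * kG + 3 * kf1 + 2 * kf2 + kf4 + kf5) ≤
      β * (3 * (lM - (eB - eL)) + 3 * (kX + kG + kf1 + kf2 + kf3 + kf4 + kf5)) :=
    mul_le_mul_of_nonneg_left (by linarith) (by linarith)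
  have e2 : C * ((lM - (eB - eL)) + kG + kf1 + kf2 + 1) ≤
      C * (3 * (lM - (eB - eL)) + 3 * (kX + kG + kf1 + kf2 + kf3 + kf4 + kf5) + 1) :=
    mul_le_mul_of_nonneg_left (by linarith) hC
  nlinarith [hF, e1, e2]

end F3

end Pool.Agent.Helper8.Kak
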