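import Pool.Agent.Helper39.KakXO

/-!
# The final step for a system over a system
-/

set_option autoImplicit false

namespace Pool.Agent.Helper8.Kak

/-- the final step: `S'` a system over `S` (a `Link`) -/
theorem Link.factF {m M : ℕ} {G : Geo m M} {S S' : Sys G} (L : Link S S') {β C : ℝ}
    (hβ : 1 ≤ β) (hC : 0 ≤ C) (ih : SDG G β C) :
    S'.a + β * ((S.a - S.h) + L.sg - (2 * S'.h - S'.Lam))
      ≤ β * (S.h + S'.X L.bh) + 100 * (β + C + 1) * (kk m S'.κ + kk m S.κ) := by
  have hκ := S'.κ_nonneg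
  have hk : 0 ≤ kk m S'.κ := by
    have hm : (0 : ℝ) ≤ (m : ℝ) := Nat.cast_nonneg _
    have h1 : 0 ≤ (m : ℝ) * (S'.κ + 1) := mul_nonneg hm (by linarith)
    have e2 : kk m S'.κ = 34 * (m * (S'.κ + 1)) + 34 * (S'.κ + 1) := by
      unfold kk; ring
    linarith
  exact (xOut S' L.bh L.hT).factF (by linarith) (by linarith) (by linarith) hβ hC ih

end Pool.Agent.Helper8.Kak
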