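import Pool.Agent.Helper75.KakHI

/-!
# The final inequality: from `RIH` to an additive gain for all systems
-/

set_option autoImplicit false

namespace Pool.Agent.Helper75.KakHB

open Pool.Agent.Helper8.Kak Pool.Agent.Helper6.Kak

variable {m M : ℕ} {G : Geo m M}

theorem sc_le (l l' : G.L) : sc G l l' ≤ JJ G.δ := by
  classical
  exact Nat.findGreatest_le _

theorem sc_spec (l l' : G.L) (i : Fin m) :
    |G.v l i - G.v l' i| ≤ 2 * (1 / 2) ^ sc G l l' := by
  classical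
  have h := Nat.findGreatest_spec (P := fun k => ∀ i, |G.v l i - G.v l' i| ≤ 2 * (1 / 2) ^ k)
    (Nat.zero_le (JJ G.δ)) (fun i => by
      have h1 := G.hv l i
      have h2 := G.hv l' i
      rw [pow_zero, mul_one]
      exact (abs_sub _ _).trans (by linarith))
  exact h i

theorem gap_eq {δ : ℝ} (hδ : 0 < δ) (k : ℕ) : gap δ k = Real.log ((1 / 2) ^ k / δ) := by
  unfold gap
  have h2 : Real.log (1 / 2) = - Real.log 2 := by rw [one_div, Real.log_inv]
  have h3 : Real.log (1 / δ) = - Real.log δ := by rw [one_div, Real.log_inv]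
  rw [h3, Real.log_div (by positivity) hδ.ne', Real.log_pow, h2]
  ring

theorem one_le_gap {δ : ℝ} (hδ : 0 < δ) {k : ℕ} (h : k ≤ JJ δ) (hδ1 : δ ≤ 1) :
    1 / 2 ≤ (1 / 2) ^ k / δ := by
  have h1 := gap_ge hδ h hδ1
  rw [gap_eq hδ, ← Real.log_inv] at h1
  have h3 := (Real.log_le_log_iff (by norm_num) (by positivity)).1 h1
  linarith

theorem log_JJ_le (G : Geo m M) : Real.log (JJ G.δ + 1) ≤ 2 * ell M := by
  have hM := M_pos G
  have hM' : (1 : ℝ) ≤ M := by exact_mod_cast hM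
  have hδ := G.hδ
  have hlM : 0 ≤ Real.log M := Real.log_nonneg hM'
  have h0 : 0 ≤ Real.logb 2 (1 / G.δ) := by
    apply Real.logb_nonneg (by norm_num)
    rw [le_div_iff₀ hδ]
    linarith [G.hδ1]
  have h2 : (JJ G.δ : ℝ) < Real.logb 2 (1 / G.δ) + 1 := Nat.ceil_lt_add_one h0
  have h3 : Real.logb 2 (1 / G.δ) ≤ 2 * Real.log M := by
    have e1 : 1 / G.δ ≤ M := by
      rw [div_le_iff₀ hδ]
      linarith [G.hM]
    have e2 : Real.log (1 / G.δ) ≤ Real.log M := Real.log_le_log (by positivity) e1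
    unfold Real.logb
    have l2 : 1 / 2 < Real.log 2 := by
      have := Real.log_two_gt_d9
      linarith
    rw [div_le_iff₀ (by linarith)]
    nlinarith
  have hl2 : Real.log 2 ≤ 1 := by
    have := Real.log_two_lt_d9
    linarith
  have h4 : Real.log (JJ G.δ + 1) ≤ Real.log (2 * (Real.log M + 3)) := by
    apply Real.log_le_log (by positivity)
    linarith
  rw [Real.log_mul (by norm_num) (by linarith)] at h4
  have h5 := one_le_ell hM
  unfold ell at h5 ⊢
  linarith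

section

variable (S : Sys G)

theorem pZ_prob : IsProb (pZ S) := glue_isProb S.hp S.hp fun _ => rfl

theorem pZ_fst : MP (pZ S) S.p Prod.fst := glue_fst S.hp.1 fun _ => rfl

theorem AQ_le : AQ S ≤ Real.log (1 / G.δ) := by
  unfold AQ Ex
  have h : ∀ z, pZ S z * gap G.δ (kZ S z) ≤ pZ S z * Real.log (1 / G.δ) := by
    intro z
    refine mul_le_mul_of_nonneg_left ?_ ((pZ_prob S).1 z)
    unfold gap
    have h3 : 0 < Real.log 2 := Real.log_pos (by norm_num)
    have : 0 ≤ (kZ S z : ℝ) * Real.log 2 := by positivity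
    linarith
  have h1 := Finset.sum_le_sum fun z (_ : z ∈ Finset.univ) => h z
  rw [← Finset.sum_mul, (pZ_prob S).2] at h1
  linarith

/-- the scale has small entropy -/
theorem Ent_kZ (r : Setoid (S.Ω × S.Ω)) :
    Ent (pZ S) (r ⊓ Setoid.ker (kZ S)) ≤ Ent (pZ S) r + 2 * ell M := by
  have h := Ent_height_le (M := JJ G.δ + 1) (pZ_prob S) r
    (fun z => ⟨kZ S z, Nat.lt_succ_of_le (sc_le _ _)⟩)
  have e : (Setoid.ker fun z : S.Ω × S.Ω =>
      (⟨kZ S z, Nat.lt_succ_of_le (sc_le _ _)⟩ : Fin (JJ G.δ + 1))) = Setoid.ker (kZ S) := by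
    ext a b
    simp only [Setoid.ker_def, Fin.mk.injEq]
  rw [e, inf_comm] at h
  have h2 := log_JJ_le G
  push_cast at h
  linarith

/-- the line given the tube -/
theorem CE_line : CE (pZ S) (Setoid.ker (fun z : S.Ω × S.Ω => S.l z.1))
    (Setoid.comap Prod.fst S.K ⊓ Setoid.ker (kZ S) ⊓ Setoid.ker (QZ S))
      ≤ m * (AQ S + Real.log 12) := by
  have hδ := G.hδ
  have hp := pZ_prob S
  have h := CE_cell hδ hp (Setoid.comap Prod.fst S.K ⊓ Setoid.ker (kZ S) ⊓ Setoid.ker (QZ S))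
    (fun z : S.Ω × S.Ω => G.v (S.l z.1)) (fun z => 3 * ((1 / 2) ^ kZ S z / G.δ))
    (fun z => by positivity) (fun z z' _ _ g => by
      have : kZ S z = kZ S z' := g.1.2
      show 3 * ((1 / 2) ^ kZ S z / G.δ) = 3 * ((1 / 2) ^ kZ S z' / G.δ)
      rw [this]) ?_
  · have e : (Setoid.ker fun z : S.Ω × S.Ω => cell G.δ (G.v (S.l z.1)))
        = Setoid.ker (fun z : S.Ω × S.Ω => S.l z.1) := by
      ext a b
      exact ⟨fun h => G.hinj h, fun h => congrArg (fun l => cell G.δ (G.v l)) h⟩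
    rw [e] at h
    refine h.trans (mul_le_mul_of_nonneg_left ?_ (Nat.cast_nonneg m))
    have h2 : ∀ z, pZ S z * Real.log (2 * (3 * ((1 / 2) ^ kZ S z / G.δ)) + 3)
        ≤ pZ S z * gap G.δ (kZ S z) + pZ S z * Real.log 12 := by
      intro z
      rw [← mul_add]
      refine mul_le_mul_of_nonneg_left ?_ (hp.1 z)
      have h3 := one_le_gap hδ (sc_le (S.l z.1) (S.l z.2)) G.hδ1
      rw [gap_eq hδ, ← Real.log_mul (by positivity) (by norm_num)]
      apply Real.log_le_log (by positivity)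
      have h5 : (1 / 2 : ℝ) ≤ (1 / 2) ^ kZ S z / G.δ := h3
      linarith
    have h6 := Finset.sum_le_sum fun z (_ : z ∈ Finset.univ) => h2 z
    rw [Finset.sum_add_distrib, ← Finset.sum_mul, hp.2, one_mul] at h6
    exact h6
  · intro z z' _ _ g i
    obtain ⟨⟨_, g1⟩, g2⟩ := g
    have g1' : kZ S z = kZ S z' := g1
    have g2' : QZ S z = QZ S z' := g2
    have hk : (0 : ℝ) < (1 / 2) ^ kZ S z := by positivity
    have e : 3 * ((1 / 2) ^ kZ S z / G.δ) * G.δ = 3 * (1 / 2) ^ kZ S z := by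
      field_simp
    rw [e]
    unfold QZ tb at g2'
    have hz : sc G (S.l z.1) (S.l z.2) = kZ S z := rfl
    have hz' : sc G (S.l z'.1) (S.l z'.2) = kZ S z := g1'.symm
    rw [hz, hz', Sym2.eq_iff] at g2'
    rcases g2' with ⟨a1, _⟩ | ⟨a1, _⟩
    · have a2 : cell ((1 / 2) ^ kZ S z) (G.v (S.l z.1))
          = cell ((1 / 2) ^ kZ S z) (G.v (S.l z'.1)) := congrArg Prod.snd a1
      have a3 := floor_eq_near hk (congrFun a2 i)
      linarith
    · have a2 : cell ((1 / 2) ^ kZ S z) (G.v (S.l z.1))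
          = cell ((1 / 2) ^ kZ S z) (G.v (S.l z'.2)) := congrArg Prod.snd a1
      have a3 := floor_eq_near hk (congrFun a2 i)
      have a4 := sc_spec (S.l z'.1) (S.l z'.2) i
      rw [hz'] at a4
      have a5 : G.v (S.l z.1) i - G.v (S.l z'.1) i
        = (G.v (S.l z.1) i - G.v (S.l z'.2) i) - (G.v (S.l z'.1) i - G.v (S.l z'.2) i) := by ring
      rw [a5]
      exact (abs_sub _ _).trans (by linarith)

theorem HQ_ge : S.a - m * (AQ S + Real.log 12) - 2 * ell M ≤ HQ S := by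
  have hp := pZ_prob S
  have h1 := Ent_kZ S (Setoid.comap Prod.fst S.K)
  have h2 := CE_line S
  have h3 : Ent (pZ S) (Setoid.comap Prod.fst S.K) = S.eK := (pZ_fst S).Ent_eq _
  have h4 : S.eL ≤ Ent (pZ S) (Setoid.ker (fun z : S.Ω × S.Ω => S.l z.1) ⊓
      (Setoid.comap Prod.fst S.K ⊓ Setoid.ker (kZ S) ⊓ Setoid.ker (QZ S))) := by
    have e : Ent (pZ S) (Setoid.comap Prod.fst (S.K ⊓ Setoid.ker S.l)) = S.eL :=
      (pZ_fst S).Ent_eq _
    rw [← e]
    refine Ent_mono hp ?_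
    rintro a b ⟨h1, ⟨h2, _⟩, _⟩
    exact ⟨h2, h1⟩
  unfold CE at h2
  unfold HQ Sys.a
  linarith

end

/-- the final inequality -/
theorem final {m : ℕ} {β c : ℝ} (hβ : 1 < β) (hc : c ≤ (β - 1) * m) (h : RIH m β c) :
    ∃ C : ℝ, 0 ≤ C ∧ ∀ (M : ℕ) (G : Geo m M) (S : Sys G),
      S.a ≤ S.h + (m - (m + c) / β) * Real.log (1 / G.δ) + C * (S.κ + ell M) := by
  obtain ⟨C, hC, H⟩ := h
  have l12 : 0 ≤ Real.log 12 := Real.log_nonneg (by norm_num)
  refine ⟨(C + (β - 1) * (m * Real.log 12 + 2)) / β, by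
    have : 0 < β - 1 := by linarith
    positivity, fun M G S => ?_⟩
  have h1 := H M G S
  have h2 := HQ_ge S
  have h3 := AQ_le S
  have hκ : 0 ≤ S.κ := S.κ_nonneg
  have h4 := one_le_ell (M_pos G)
  have hm : (0 : ℝ) ≤ m := Nat.cast_nonneg m
  have hβ0 : 0 < β := by linarith
  have f1 := mul_le_mul_of_nonneg_left h2 (by linarith : (0 : ℝ) ≤ β - 1)
  have f2 : ((β - 1) * m - c) * AQ S ≤ ((β - 1) * m - c) * Real.log (1 / G.δ) :=
    mul_le_mul_of_nonneg_left h3 (by linarith)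
  have f3 : (β - 1) * (m * Real.log 12 + 2 * ell M)
      ≤ (β - 1) * (m * Real.log 12 + 2) * (S.κ + ell M) := by
    rw [mul_assoc]
    refine mul_le_mul_of_nonneg_left ?_ (by linarith)
    have : 0 ≤ (m : ℝ) * Real.log 12 := by positivity
    nlinarith
  have key : β * S.a ≤ β * S.h + ((β - 1) * m - c) * Real.log (1 / G.δ)
      + (C + (β - 1) * (m * Real.log 12 + 2)) * (S.κ + ell M) := by
    rw [add_mul C]
    nlinarith
  have e : S.h + (m - (m + c) / β) * Real.log (1 / G.δ)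
      + (C + (β - 1) * (m * Real.log 12 + 2)) / β * (S.κ + ell M)
      = (β * S.h + ((β - 1) * m - c) * Real.log (1 / G.δ)
      + (C + (β - 1) * (m * Real.log 12 + 2)) * (S.κ + ell M)) / β := by
    field_simp
    ring
  rw [e, le_div_iff₀ hβ0]
  linarith

end Pool.Agent.Helper75.KakHB
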