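import Pool.Agent.Helper8.Hyb.Top
import Pool.Agent.Helper80.Kak.LemU
import Pool.Agent.Helper75.KakHJ
import Pool.Agent.Helper6.Kak.Scale

/-!
# Hybrid step: the cost `u3` (lemma U on the top space)
-/

set_option autoImplicit false

namespace Pool.Agent.Helper75.KakU3

open Finset Pool.Agent.Helper8.Kak Pool.Agent.Helper6.Kak Pool.Agent.Helper90.Kak
  Pool.Agent.Helper8.Hyb Pool.Agent.Helper81.Kak

variable {m M : ℕ} {G : Geo m M} (S : PSys G)

/-- the gain of scale of the second gluing is the expected difference of the scales -/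
theorem Dz_eq : Dz S = Ex (pzz S) (fun z => ((kZ (Sz S) z : ℝ) - S.k (d0 z.1.1)) * Real.log 2) := by
  have h1 : S.A = Ex (pzz S) (fun z => gap G.δ (S.k (d0 z.1.1))) := by
    have hm : MP (pzz S) S.p (fun z => d0 z.1.1) :=
      (MPz S).comp ((MPw S).comp (MP_d0 S.l (pr S)))
    exact (Ex_MP hm (fun ω => gap G.δ (S.k ω))).symm
  have h2 : AQ (Sz S) = Ex (pzz S) (fun z => gap G.δ (kZ (Sz S) z)) := rfl
  have h3 : Ex (pzz S) (fun z => gap G.δ (S.k (d0 z.1.1)))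
      = Ex (pzz S) (fun z => ((kZ (Sz S) z : ℝ) - S.k (d0 z.1.1)) * Real.log 2
        + gap G.δ (kZ (Sz S) z)) := by
    congr 1
    funext z
    unfold gap
    ring
  have h4 := Ex_add (p := pzz S)
    (fun z => ((kZ (Sz S) z : ℝ) - S.k (d0 z.1.1)) * Real.log 2)
    (fun z => gap G.δ (kZ (Sz S) z))
  have h5 : Dz S = S.A - AQ (Sz S) := rfl
  rw [h5, h1, h2, h3, h4]
  ring

theorem cost_u3 (m : ℕ) : ∃ N : ℝ, 0 ≤ N ∧ ∀ (M : ℕ) (G : Geo m M) (S : PSys G) (Lm kk : ℝ),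
    Hy.ParQ (pzz S) (VZ S) S.eK S.eL S.eB S.eT S.eP S.eB2 (Real.log M) Lm kk →
    Dz S / 2 - N * (kk + 1) ≤ HH (pzz S) (VZ S) {.K, .tz, .kq, .kz, .b, .Pz}
      - HH (pzz S) (VZ S) {.K, .tz, .kq, .kz, .b} := by
  obtain ⟨C, hC, hU⟩ := Pool.Agent.Helper80.Kak.lemU m
  obtain ⟨N, hN, hJ⟩ := Pool.Agent.Helper75.KakHB.factJQ
  refine ⟨C * (2 * N + 1), by positivity, fun M G S Lm kk h => ?_⟩
  obtain ⟨-, j2, j3⟩ := hJ _ _ _ _ _ _ _ _ _ _ _ h
  have hp := hpz S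
  have hpos : ∀ z : Zz S.Ω, 0 < pzz S z → 0 < pY S z.1.1 := fun z hz =>
    (MPw S).pos (hpw S).1 ((MPz S).pos (hpz S).1 hz)
  have key := hU M G (pzz S) hp ((({.K, .tz, .kq, .kz} : Finset VH)).inf (VZ S))
    (fun z => S.l (S.σ (d1 z.1.1))) (fun z => S.l (d0 z.1.1)) (fun z => S.T (db z.1.1))
    (fun z => S.T (d1 z.1.1)) (fun z => S.k (d0 z.1.1)) (kZ (Sz S)) (N * kk) (N * kk)
    ?_ ?_ ?_ ?_ ?_ ?_
  · rw [← Dz_eq S] at key
    have e1 : HH (pzz S) (VZ S) {.K, .tz, .kq, .kz, .b, .Pz}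
        - HH (pzz S) (VZ S) {.K, .tz, .kq, .kz, .b}
        = CE (pzz S) (VZ S .Pz) (({.K, .tz, .kq, .kz, .b} : Finset VH).inf (VZ S)) :=
      cost_eq _ _ _ (by decide)
    have e2 : CE (pzz S) (Setoid.ker (fun ω => cell ((1 / 2) ^ kZ (Sz S) ω)
        (pnt G.x G.v (S.l (S.σ (d1 ω.1.1))) (S.T (db ω.1.1)))))
        ((({.K, .tz, .kq, .kz} : Finset VH)).inf (VZ S) ⊓ Setoid.ker (fun z => S.T (db z.1.1)))
        = CE (pzz S) (VZ S .Pz) (({.K, .tz, .kq, .kz, .b} : Finset VH).inf (VZ S)) := by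
      refine CE_congr' hp (fun _ _ _ _ _ => Iff.rfl) fun z z' _ _ => ?_
      rw [inf_rel, Setoid.inf_iff_and, inf_rel]
      simp only [Finset.mem_insert, Finset.mem_singleton, forall_eq_or_imp, forall_eq]
      constructor
      · rintro ⟨⟨g1, g2, g3, g4⟩, g5⟩
        exact ⟨g1, g2, g3, g4, g5⟩
      · rintro ⟨g1, g2, g3, g4, g5⟩
        exact ⟨⟨g1, g2, g3, g4⟩, g5⟩
    rw [e1, ← e2]
    have e3 : C * (2 * N + 1) * (kk + 1) = C * (N * kk + N * kk + 1) + C * (2 * N + kk) := by ring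
    have e4 : 0 ≤ C * (2 * N + kk) := mul_nonneg hC (by linarith [h.kk0])
    rw [e3]
    linarith
  · intro z z' hz hz' hK
    rw [inf_rel] at hK
    simp only [Finset.mem_insert, Finset.mem_singleton, forall_eq_or_imp, forall_eq] at hK
    obtain ⟨g1, -, -, g4⟩ := hK
    have g1' : S.K (d0 z.1.1) (d0 z'.1.1) := g1
    exact ⟨S.kK _ _ ((MP_d0 S.l (pr S)).pos (hpY S).1 (hpos z hz))
      ((MP_d0 S.l (pr S)).pos (hpY S).1 (hpos z' hz')) g1', g4⟩
  · intro z _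
    exact sc_le G _ _
  · intro z hz
    exact (lk S (hpos z hz) (hpos z hz)).p1
  · intro z hz
    have k := lk S (hpos z hz) (hpos z hz)
    have hd1 : 0 < S.p (d1 z.1.1) := (MP_d1 S.l (pr S)).pos (hpY S).1 (hpos z hz)
    have hd0 : 0 < S.p (d0 z.1.1) := (MP_d0 S.l (pr S)).pos (hpY S).1 (hpos z hz)
    have hk : S.k (d0 z.1.1) = S.k (d1 z.1.1) := by
      have := (links S.l (pr S) (hpos z hz)).2.2.1.1
      exact S.kK _ _ hd0 hd1 this
    have ha := S.ang _ hd1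
    rw [k.l1, ← hk] at ha
    rcases ha with ha | ⟨i, hi⟩
    · exact Or.inl ha
    · exact Or.inr ⟨i, by rw [abs_sub_comm]; exact hi⟩
  · have e1 : HH (pzz S) (VZ S) {.K, .l0, .l1, .l2, .T0, .T1, .tz, .kq, .kz, .b}
        - HH (pzz S) (VZ S) {.K, .l0, .l1, .l2, .T0, .T1, .tz, .kq, .kz}
        = CE (pzz S) (VZ S .b)
          (({.K, .l0, .l1, .l2, .T0, .T1, .tz, .kq, .kz} : Finset VH).inf (VZ S)) :=
      cost_eq _ _ _ (by decide)
    rw [e1] at j2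
    refine j2.trans ?_
    refine CE_anti hp fun z z' _ _ g => ?_
    rw [inf_rel] at g
    simp only [Finset.mem_insert, Finset.mem_singleton, forall_eq_or_imp, forall_eq] at g
    obtain ⟨g1, g2, g3, g4, g5, g6, g7, g8, g9⟩ := g
    refine ⟨⟨⟨?_, g4⟩, g2⟩, g6⟩
    rw [inf_rel]
    simp only [Finset.mem_insert, Finset.mem_singleton, forall_eq_or_imp, forall_eq]
    exact ⟨g1, g7, g8, g9⟩
  · have e1 : HH (pzz S) (VZ S) {.K, .l0, .tz, .kq, .kz, .T1}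
        - HH (pzz S) (VZ S) {.K, .l0, .tz, .kq, .kz}
        = CE (pzz S) (VZ S .T1) (({.K, .l0, .tz, .kq, .kz} : Finset VH).inf (VZ S)) :=
      cost_eq _ _ _ (by decide)
    rw [e1] at j3
    refine j3.trans ?_
    refine CE_anti hp fun z z' _ _ g => ?_
    rw [inf_rel] at g
    simp only [Finset.mem_insert, Finset.mem_singleton, forall_eq_or_imp, forall_eq] at g
    obtain ⟨g1, g2, g3, g4, g5⟩ := g
    refine ⟨?_, g2⟩
    rw [inf_rel]
    simp only [Finset.mem_insert, Finset.mem_singleton, forall_eq_or_imp, forall_eq]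
    exact ⟨g1, g3, g4, g5⟩

end Pool.Agent.Helper75.KakU3
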